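import Pool.Agent.K1H98.HS.Bundle

/-!
# Blow-ups of fourfolds along smooth subvarieties
-/

set_option autoImplicit false

open CategoryTheory AlgebraicGeometry Module

universe u v

namespace Pool.Agent.K1H98.HS

open Pool.Agent.H914 Pool.Agent.H914.VarClass Pool.Agent.H914.VarClass.Obj
  Pool.Agent.H914.WeilCohomology

variable {k : Type u} [Field k] {𝒱 : VarClass k} {ops : CycleOps 𝒱}
  (W : WeilCohomology.{u, v} ops)

variable {X' X Z E : 𝒱.Obj} {f : X' ⟶ X} {i : Z ⟶ X} {j : E ⟶ X'} {p : E ⟶ Z} {ζ : E.Cycles}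
  {c : ℕ}

lemma bl_tr_pull (h : IsBlowUp W f i j p ζ c) (a : W.H X) : W.tr X' (W.map f a) = W.tr X a := by
  have h1 := W.tr_push f 1 a
  rw [h.deg, one_mul, one_mul] at h1
  exact h1.symm

lemma bl_push (h : IsBlowUp W f i j p ζ c) {m : ℕ} (hm : m + 1 < c) (u : W.H Z) :
    W.push f (W.push j (W.cl E ζ ^ m * W.map p u)) = 0 := by
  rw [← push_comp, h.comm, push_comp, push_mul, h.push_lt m hm, zero_mul, map_zero]

lemma bl_orth (h : IsBlowUp W f i j p ζ c) {m : ℕ} (hm : m + 1 < c) (u : W.H Z) (a : W.H X) :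
    W.tr X' (W.push j (W.cl E ζ ^ m * W.map p u) * W.map f a) = 0 := by
  rw [← W.tr_push, bl_push W h hm, zero_mul, map_zero]

lemma bl_self (h : IsBlowUp W f i j p ζ c) (m n : ℕ) (u v : W.H Z) :
    W.tr X' (W.push j (W.cl E ζ ^ m * W.map p u) * W.push j (W.cl E ζ ^ n * W.map p v)) =
      -W.tr Z (W.push p (W.cl E ζ ^ (m + n + 1)) * (u * v)) := by
  rw [W.tr_push, h.self, W.tr_push, map_mul (W.map p), mul_neg, map_neg]
  congr 2
  have hc : ∀ x, Commute (W.cl E ζ) x := fun x => comm_cl W h.cyc x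
  have e1 : W.cl E ζ ^ m * W.map p u * (W.cl E ζ * (W.cl E ζ ^ n * W.map p v)) =
      W.cl E ζ ^ m * (W.map p u * W.cl E ζ ^ (n + 1)) * W.map p v := by
    rw [pow_succ' (W.cl E ζ) n]
    noncomm_ring
  rw [e1, ← ((hc (W.map p u)).pow_left (n + 1)).eq, show m + n + 1 = m + (n + 1) by ring,
    pow_add (W.cl E ζ) m (n + 1)]
  simp only [mul_assoc]

/-- The exceptional divisor. -/
lemma bl_exc (h : IsBlowUp W f i j p ζ c) : X'.IsCyc 1 (ops.push j E.V.fundCycle) :=
  ops.push_mem j E.V.fundCycle_mem (by have := h.dim; have := h.dimE; omega)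

lemma bl_exc_cl (_h : IsBlowUp W f i j p ζ c) :
    W.cl X' (ops.push j E.V.fundCycle) = W.push j (W.cl E ζ ^ 0 * W.map p 1) := by
  rw [W.cl_push, W.cl_fund, pow_zero, map_one (W.map p), one_mul]

/-- A class of degree zero is a multiple of one. -/
lemma deg_zero {b : Z.Cycles} (hb : Z.IsCyc 0 b) : ∃ t : W.K, W.cl Z b = t • 1 := by
  have h1 := W.cl_mem hb
  rw [mul_zero, W.gr_zero, Submodule.mem_span_singleton] at h1
  obtain ⟨t, ht⟩ := h1
  exact ⟨t, ht.symm⟩

theorem rho_blow (hX : X.dim = 4) (hX' : X'.dim = 4) (h : IsBlowUp W f i j p ζ c)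
    {H : Z.Cycles} (hH : HodgeIndex ops Z H) : rho W hX + 1 ≤ rho W hX' := by
  have h2c := h.two_le
  have hdZ := h.dimZ
  have hdE := h.dimE
  let G : (Nm W X 1 3 (h1 hX) × ℚ) →ₗ[ℚ] Nm W X' 1 3 (h1 hX') :=
    (pullN W f (h1 hX) (h1 hX')).coprod
      (LinearMap.toSpanSingleton ℚ _ (cls W (h1 hX') (bl_exc W h)))
  have hG : Function.Injective G := by
    rw [← LinearMap.ker_eq_bot, LinearMap.ker_eq_bot']
    rintro ⟨x, t⟩ hx
    obtain ⟨b, hb, rfl⟩ := cls_surj W (h1 hX) x
    have hx' : cls W (h1 hX') (ops.pull_mem f hb) + t • cls W (h1 hX') (bl_exc W h) = 0 := hx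
    rw [← cls_smul, ← cls_add, cls_eq_zero] at hx'
    have hx'' : ∀ (c : X'.Cycles), X'.IsCyc 3 c →
        W.tr X' ((W.map f (W.cl X b) + (t : W.K) • W.push j (W.cl E ζ ^ 0 * W.map p 1)) *
          W.cl X' c) = 0 := by
      intro c hc
      have h3 := num_cast W (SmVar.IsCyc.add (ops.pull_mem f hb)
        (SmVar.IsCyc.smul t (bl_exc W h))) hc (h1 hX')
      rw [hx' c hc, Rat.cast_zero, map_add, cl_smul, W.cl_pull, bl_exc_cl W h] at h3
      exact h3.symm
    have hb0 : cls W (h1 hX) hb = 0 := by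
      rw [cls_eq_zero]
      intro w hw
      have h3 := hx'' (ops.pull f w) (ops.pull_mem f hw)
      rw [W.cl_pull, add_mul, map_add, ← map_mul, bl_tr_pull W h, smul_mul_assoc, map_smul,
        bl_orth W h (by omega), smul_zero, add_zero] at h3
      apply rat_inj W
      rw [num_cast W hb hw (h1 hX), h3, Rat.cast_zero]
    have hb1 : ∀ c', X'.IsCyc 3 c' → W.tr X' (W.map f (W.cl X b) * W.cl X' c') = 0 := by
      intro c' hc'
      have hpc : X.IsCyc 3 (ops.push f c') := ops.push_mem f hc' (by omega)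
      have h3 := (cls_eq_zero W (h1 hX) hb).1 hb0 _ hpc
      have h4 := num_cast W hb hpc (h1 hX)
      rw [h3, Rat.cast_zero, cl_comm W hb, W.cl_push, W.tr_push] at h4
      rw [← W.cl_pull, cl_comm W (ops.pull_mem f hb), W.cl_pull]
      exact h4.symm
    have ht : t = 0 := by
      obtain ⟨g, hg, hne⟩ := exists_deg W hH
      have hcy : X'.IsCyc 3 (ops.push j (divPow ops ζ (c - 2) (ops.pull p g))) :=
        ops.push_mem j (dp_mem h.cyc (c - 2) (ops.pull_mem p hg)) (by omega)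
      have h3 := hx'' _ hcy
      rw [add_mul, map_add, hb1 _ hcy, zero_add, W.cl_push, cl_dp, W.cl_pull, smul_mul_assoc,
        map_smul, bl_self W h, show 0 + (c - 2) + 1 = c - 1 by omega, h.push_eq, one_mul, one_mul,
        smul_eq_mul, mul_neg, neg_eq_zero] at h3
      exact_mod_cast (mul_eq_zero.1 h3).resolve_right hne
    rw [hb0, ht]
    rfl
  have h4 := LinearMap.finrank_le_finrank_of_injective hG
  rw [Module.finrank_prod, Module.finrank_self] at h4
  exact h4

/-- One special cycle detects the sign on the exceptional part. -/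
theorem exc_part (hX : X.dim = 4) (hX' : X'.dim = 4) (h : IsBlowUp W f i j p ζ c)
    {H : Z.Cycles} (hH : HodgeIndex ops Z H) :
    ∃ (w : X'.Cycles) (_ : X'.IsCyc 2 w) (m : ℕ) (u : W.H Z), m + 1 < c ∧
      W.cl X' w = W.push j (W.cl E ζ ^ m * W.map p u) ∧
      ∀ b : ℕ → Z.Cycles, (∀ m, m + 1 ≤ 2 → Z.IsCyc (2 - (m + 1)) (b m)) →
        (∀ m, 2 < m + 1 → b m = 0) → ∀ κ : W.H X',
        κ = ∑ m ∈ Finset.range (c - 1), W.push j (W.cl E ζ ^ m * W.map p (W.cl Z (b m))) →
        W.tr X' (κ * W.cl X' w) = 0 → ∀ t : ℚ, (t : W.K) = W.tr X' (κ * κ) → 0 ≤ t := by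
  have h2c := h.two_le
  have hdZ := h.dimZ
  have hdE := h.dimE
  have hζ := h.cyc
  have hcases : c = 2 ∨ c = 3 ∨ c = 4 := by omega
  rcases hcases with rfl | rfl | rfl
  · -- the centre is a surface
    have hZ : Z.dim = 2 := by omega
    refine ⟨ops.push j (ops.pull p H), ops.push_mem j (ops.pull_mem p hH.cyc) (by omega), 0,
      W.cl Z H, by omega, ?_, ?_⟩
    · rw [W.cl_push, W.cl_pull, pow_zero, one_mul]
    intro b hb _ κ hκ h0 t ht
    have hb0 : Z.IsCyc 1 (b 0) := hb 0 (by omega)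
    rw [show 2 - 1 = 0 + 1 by rfl, Finset.sum_range_succ, Finset.sum_range_zero, zero_add] at hκ
    have hp1 : W.push p (W.cl E ζ ^ (0 + 0 + 1)) = 1 := h.push_eq
    have e0 : W.tr Z (W.cl Z (b 0) * W.cl Z H) = 0 := by
      have h3 : W.cl X' (ops.push j (ops.pull p H)) =
          W.push j (W.cl E ζ ^ 0 * W.map p (W.cl Z H)) := by
        rw [W.cl_push, W.cl_pull, pow_zero, one_mul]
      rw [hκ, h3, bl_self W h, hp1, one_mul, neg_eq_zero] at h0
      exact h0
    have e1 : (t : W.K) = -W.tr Z (W.cl Z (b 0) * W.cl Z (b 0)) := by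
      rw [ht, hκ, bl_self W h, hp1, one_mul]
    have e2 : (t : W.K) = ((-num ops (b 0) (b 0) : ℚ) : W.K) := by
      rw [e1, Rat.cast_neg, num_cast W hb0 hb0 (by omega)]
    have e3 : t = -num ops (b 0) (b 0) := rat_inj W e2
    rw [e3, neg_nonneg]
    by_cases hnz : NumZero ops Z 1 (b 0)
    · exact (hnz (b 0) (cyc_cast hb0 (by omega))).le
    · have h4 := hH.neg (b 0) hb0 (by
        apply rat_inj W
        rw [← W.tr_cl (by
          have := ops.mul_mem hb0 (dp_mem (ops := ops) hH.cyc (Z.dim - 1) Z.V.fundCycle_mem)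
          exact cyc_cast this (by omega)), W.cl_mul, cl_dp, W.cl_fund, mul_one,
          show Z.dim - 1 = 1 by omega, pow_one, e0, Rat.cast_zero]) hnz
      rw [show Z.dim - 2 = 0 by omega] at h4
      exact h4.le
  · -- the centre is a curve
    have hZ : Z.dim = 1 := by omega
    obtain ⟨g, hg, hne⟩ := exists_deg W hH
    have hg1 : Z.IsCyc 1 g := cyc_cast hg hZ
    have hgc : W.cl X' (ops.push j (ops.pull p g)) =
        W.push j (W.cl E ζ ^ 0 * W.map p (W.cl Z g)) := by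
      rw [W.cl_push, W.cl_pull, pow_zero, one_mul]
    refine ⟨ops.push j (ops.pull p g), ops.push_mem j (ops.pull_mem p hg1) (by omega), 0,
      W.cl Z g, by omega, hgc, ?_⟩
    intro b hb _ κ hκ h0 t ht
    have hb0 : Z.IsCyc 1 (b 0) := hb 0 (by omega)
    have hb1 : Z.IsCyc 0 (b 1) := hb 1 (by omega)
    rw [show 3 - 1 = 0 + 1 + 1 by rfl, Finset.sum_range_succ, Finset.sum_range_succ,
      Finset.sum_range_zero, zero_add] at hκ
    have hp0 : W.push p (W.cl E ζ ^ (0 + 0 + 1)) = 0 := h.push_lt 1 (by omega)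
    have hp1 : W.push p (W.cl E ζ ^ (1 + 0 + 1)) = 1 := h.push_eq
    have hb1z : W.cl Z (b 1) = 0 := by
      rw [hκ, hgc, add_mul, map_add, bl_self W h, bl_self W h, hp0, hp1, zero_mul, map_zero,
        neg_zero, zero_add, one_mul, neg_eq_zero] at h0
      obtain ⟨s, hs⟩ := deg_zero W hb1
      rw [hs, smul_mul_assoc, one_mul, map_smul, smul_eq_mul] at h0
      rw [hs, (mul_eq_zero.1 h0).resolve_right hne, zero_smul]
    rw [hb1z, map_zero, mul_zero, map_zero, add_zero] at hκ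
    have e1 : (t : W.K) = ((0 : ℚ) : W.K) := by
      rw [ht, hκ, bl_self W h, hp0, zero_mul, map_zero, neg_zero, Rat.cast_zero]
    exact (rat_inj W e1).ge
  · -- the centre is a point
    have hZ : Z.dim = 0 := by omega
    obtain ⟨g, hg, hne⟩ := exists_deg W hH
    have hg0 : Z.IsCyc 0 g := cyc_cast hg hZ
    have hzc : W.cl X' (ops.push j ζ) = W.push j (W.cl E ζ ^ 1 * W.map p 1) := by
      rw [W.cl_push, pow_one, map_one (W.map p), mul_one]
    refine ⟨ops.push j ζ, ops.push_mem j hζ (by omega), 1, 1, by omega, hzc, ?_⟩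
    intro b hb hb' κ hκ h0 t ht
    have hb0 : Z.IsCyc 1 (b 0) := hb 0 (by omega)
    have hb1 : Z.IsCyc 0 (b 1) := hb 1 (by omega)
    have hb0z : W.cl Z (b 0) = 0 := by
      have h3 := W.cl_mem hb0
      rw [W.gr_eq_bot Z _ (by omega)] at h3
      exact (Submodule.mem_bot _).1 h3
    have hb2z : W.cl Z (b 2) = 0 := by rw [hb' 2 (by omega), map_zero]
    rw [show 4 - 1 = 0 + 1 + 1 + 1 by rfl, Finset.sum_range_succ, Finset.sum_range_succ,
      Finset.sum_range_succ, Finset.sum_range_zero, zero_add, hb0z] at hκ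
    rw [hb2z, map_zero, mul_zero, map_zero, mul_zero, map_zero,
      zero_add, add_zero] at hκ
    have hp1 : W.push p (W.cl E ζ ^ (1 + 1 + 1)) = 1 := h.push_eq
    have hb1z : W.cl Z (b 1) = 0 := by
      rw [hκ, hzc, bl_self W h, hp1, one_mul, mul_one, neg_eq_zero] at h0
      obtain ⟨s, hs⟩ := deg_zero W hb1
      obtain ⟨s', hs'⟩ := deg_zero W hg0
      rw [hs', map_smul, smul_eq_mul] at hne
      rw [hs, map_smul, smul_eq_mul] at h0
      rw [hs, (mul_eq_zero.1 h0).resolve_right (right_ne_zero_of_mul hne), zero_smul]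
    rw [hb1z, map_zero, mul_zero, map_zero] at hκ
    have e1 : (t : W.K) = ((0 : ℚ) : W.K) := by
      rw [ht, hκ, mul_zero, map_zero, Rat.cast_zero]
    exact (rat_inj W e1).ge

theorem fewNeg_blow (hX : X.dim = 4) (hX' : X'.dim = 4) (h : IsBlowUp W f i j p ζ c)
    {H : Z.Cycles} (hH : HodgeIndex ops Z H) (hF : FewNeg W hX) : FewNeg W hX' := by
  obtain ⟨r, w, hr, hw⟩ := hF
  have hrho := rho_blow W hX hX' h hH
  obtain ⟨w0, hw0, m0, u0, hm0, hcl0, hexc⟩ := exc_part W hX hX' h hH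
  refine ⟨r + 1, Fin.cons (cls W (h2 hX') hw0) (fun l => pullN W f (h2 hX) (h2 hX') (w l)),
    by omega, ?_⟩
  intro x hx
  obtain ⟨z, hz, rfl⟩ := cls_surj W (h2 hX') x
  obtain ⟨a, b, ha, hb, hb', hab⟩ := h.span 2 z hz
  set κ := ∑ m ∈ Finset.range (c - 1), W.push j (W.cl E ζ ^ m * W.map p (W.cl Z (b m))) with hκ
  -- the exceptional part is orthogonal to the pull-backs
  have horth : ∀ a' : W.H X, W.tr X' (κ * W.map f a') = 0 := by
    intro a'
    rw [hκ, Finset.sum_mul, map_sum]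
    apply Finset.sum_eq_zero
    intro m hm
    rw [Finset.mem_range] at hm
    exact bl_orth W h (by omega) _ _
  have ha' : X'.IsCyc 2 (ops.pull f a) := ops.pull_mem f ha
  have horth' : W.tr X' (W.map f (W.cl X a) * κ) = 0 := by
    rw [← W.cl_pull, cl_comm W ha', W.cl_pull, horth]
  -- the part coming from `X`
  have h1' : 0 ≤ B4 W hX (cls W (h2 hX) ha) (cls W (h2 hX) ha) := by
    apply hw
    intro l
    obtain ⟨y, hy, hyl⟩ := cls_surj W (h2 hX) (w l)
    have h3 := hx l.succ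
    rw [Fin.cons_succ, ← hyl, pullN_cls] at h3
    apply rat_inj W
    rw [← hyl, B4_cast, Rat.cast_zero]
    have h4 := B4_cast W hX' hz (ops.pull_mem f hy)
    rw [h3, Rat.cast_zero, hab, W.cl_pull, add_mul, map_add, horth, add_zero, ← map_mul,
      bl_tr_pull W h] at h4
    exact h4.symm
  -- the exceptional part
  have h2' : W.tr X' (κ * W.cl X' w0) = 0 := by
    have h3 := hx 0
    rw [Fin.cons_zero] at h3
    have h4 := B4_cast W hX' hz hw0
    rw [h3, Rat.cast_zero, hab, add_mul, map_add] at h4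
    have h5 : W.tr X' (W.map f (W.cl X a) * W.cl X' w0) = 0 := by
      rw [← W.cl_pull, cl_comm W ha', hcl0, W.cl_pull, bl_orth W h hm0]
    rw [h5, zero_add] at h4
    exact h4.symm
  have h3' : ((B4 W hX' (cls W (h2 hX') hz) (cls W (h2 hX') hz) -
      B4 W hX (cls W (h2 hX) ha) (cls W (h2 hX) ha) : ℚ) : W.K) = W.tr X' (κ * κ) := by
    rw [Rat.cast_sub, B4_cast, B4_cast, hab, mul_add, add_mul, add_mul, map_add, map_add, map_add,
      horth, horth', ← map_mul, bl_tr_pull W h]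
    ring
  have h4' := hexc b hb hb' κ rfl h2' _ h3'
  linarith

end Pool.Agent.K1H98.HS
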