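import Pool.Agent.K1H98.HS.Geo

/-!
# Projective bundles of rank one over threefolds
-/

set_option autoImplicit false

open CategoryTheory AlgebraicGeometry Module

universe u v

namespace Pool.Agent.K1H98.HS

open Pool.Agent.H914 Pool.Agent.H914.VarClass Pool.Agent.H914.VarClass.Obj
  Pool.Agent.H914.WeilCohomology

variable {k : Type u} [Field k] {𝒱 : VarClass k} {ops : CycleOps 𝒱}
  (W : WeilCohomology.{u, v} ops)

/-- Finitely many cycles, as many as the rank, detect numerical triviality. -/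
lemma exists_detect' {X : 𝒱.Obj} {p q : ℕ} (h : p + q = X.dim) :
    ∃ w : Fin (finrank ℚ (Nm W X p q h)) → Zc X q,
      ∀ x : Nm W X p q h, (∀ i, prL W h x (w i) = 0) → x = 0 := by
  have hN : Module.Finite ℚ (Nm W X p q h) := finite_Nm W h
  let Φ : Zc X q →ₗ[ℚ] Module.Dual ℚ (Nm W X p q h) := (prL W h).flip
  have hR : LinearMap.range Φ = ⊤ := by
    have h1 : (LinearMap.range Φ).dualCoannihilator = ⊥ := by
      rw [eq_bot_iff]
      intro x hx
      rw [Submodule.mem_dualCoannihilator] at hx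
      obtain ⟨z, hz, rfl⟩ := cls_surj W h x
      rw [Submodule.mem_bot, cls_eq_zero]
      intro w hw
      exact hx _ ⟨⟨w, hw⟩, rfl⟩
    have h2 := Subspace.dualCoannihilator_dualAnnihilator_eq (W := LinearMap.range Φ)
    rw [h1, Submodule.dualAnnihilator_bot] at h2
    exact h2.symm
  have hfr : finrank ℚ (Module.Dual ℚ (Nm W X p q h)) = finrank ℚ (Nm W X p q h) :=
    Subspace.dual_finrank_eq
  let b := (Module.finBasis ℚ (Module.Dual ℚ (Nm W X p q h))).reindex (finCongr hfr)
  have hch : ∀ i, ∃ w, Φ w = b i := fun i => LinearMap.range_eq_top.1 hR (b i)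
  choose w hw using hch
  refine ⟨w, fun x hx => ?_⟩
  rw [← Module.forall_dual_apply_eq_zero_iff ℚ]
  intro φ
  rw [← b.sum_repr φ, LinearMap.sum_apply]
  apply Finset.sum_eq_zero
  intro i _
  rw [LinearMap.smul_apply, ← hw i]
  change _ • prL W h x (w i) = 0
  rw [hx i, smul_zero]

/-- Pull-back of cycles modulo numerical equivalence. -/
noncomputable def pullN {X' X : 𝒱.Obj} (f : X' ⟶ X) {p q q' : ℕ} (h : p + q = X.dim)
    (h' : p + q' = X'.dim) : Nm W X p q h →ₗ[ℚ] Nm W X' p q' h' :=
  (LinearMap.ker (pr W X p q h)).liftQ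
    { toFun := fun z => cls W h' (ops.pull_mem f z.2)
      map_add' := fun z z' => by
        rw [← cls_add]
        apply cls_congr
        have : ((z + z' : Zc X p) : X.Cycles) = (z : X.Cycles) + (z' : X.Cycles) := rfl
        rw [W.cl_pull, map_add, W.cl_pull, W.cl_pull, this, map_add, map_add]
      map_smul' := fun c z => by
        rw [RingHom.id_apply, ← cls_smul]
        apply cls_congr
        have : ((c • z : Zc X p) : X.Cycles) = c • (z : X.Cycles) := rfl
        rw [W.cl_pull, cl_smul, W.cl_pull, this, cl_smul, map_smul] }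
    (by
      intro z hz
      rw [LinearMap.mem_ker] at hz ⊢
      change cls W h' (ops.pull_mem f z.2) = 0
      rw [cls_eq_zero]
      intro w hw
      have hpw : X.IsCyc q (ops.push f w) := ops.push_mem f hw (by omega)
      have h3 := LinearMap.congr_fun hz ⟨ops.push f w, hpw⟩
      rw [pr_apply, LinearMap.zero_apply] at h3
      have h4 := num_cast W z.2 hpw h
      rw [h3, Rat.cast_zero] at h4
      apply rat_inj W
      rw [num_cast W (ops.pull_mem f z.2) hw h', Rat.cast_zero, h4, W.cl_pull, W.cl_push,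
        cl_comm W z.2, W.tr_push, ← W.cl_pull, cl_comm W (ops.pull_mem f z.2)])

lemma pullN_cls {X' X : 𝒱.Obj} (f : X' ⟶ X) {p q q' : ℕ} (h : p + q = X.dim)
    (h' : p + q' = X'.dim) {z : X.Cycles} (hz : X.IsCyc p z) :
    pullN W f h h' (cls W h hz) = cls W h' (ops.pull_mem f hz) := rfl

/-- There is a zero-cycle of nonzero degree. -/
lemma exists_deg {X : 𝒱.Obj} {D : X.Cycles} (hI : HodgeIndex ops X D) :
    ∃ w, X.IsCyc X.dim w ∧ W.tr X (W.cl X w) ≠ 0 := by
  have h1 : X.IsCyc X.dim (divPow ops D X.dim X.V.fundCycle) :=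
    cyc_cast (dp_mem hI.cyc X.dim X.V.fundCycle_mem) (by omega)
  refine ⟨_, h1, ?_⟩
  rw [W.tr_cl h1]
  exact_mod_cast hI.pos.ne'

variable {P B : 𝒱.Obj} {π : P ⟶ B} {ξ : P.Cycles}

lemma lb_push_one (h : IsLineBundle W π ξ) : W.push π 1 = 0 := by
  have h1 := push_mem W π (W.one_mem P)
  rw [h.dim, grZ_of_neg (by push_cast; omega)] at h1
  exact (Submodule.mem_bot _).1 h1

lemma lb_tr_pull (h : IsLineBundle W π ξ) (a : W.H B) : W.tr P (W.map π a) = 0 := by
  have h1 := W.tr_push π 1 a
  rw [lb_push_one W h, zero_mul, map_zero, one_mul] at h1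
  exact h1.symm

lemma lb_tr_xi (h : IsLineBundle W π ξ) (a : W.H B) :
    W.tr P (W.cl P ξ * W.map π a) = W.tr B a := by
  rw [← W.tr_push, h.push, one_mul]

theorem fewNeg_bundle (hB : B.dim = 3) (hP : P.dim = 4) (h : IsLineBundle W π ξ)
    {H : B.Cycles} (hH : HodgeIndex ops B H) : FewNeg W hP := by
  have hB12 : 1 + 2 = B.dim := by omega
  have hξ := h.cyc
  obtain ⟨w, hw⟩ := exists_detect' W hB12
  refine ⟨finrank ℚ (Nm W B 1 2 hB12), fun i => cls W (h2 hP) (ops.pull_mem π (w i).2), ?_, ?_⟩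
  · -- the rank of the divisors
    let G : (Nm W B 1 2 hB12 × ℚ) →ₗ[ℚ] Nm W P 1 3 (h1 hP) :=
      (pullN W π hB12 (h1 hP)).coprod (LinearMap.toSpanSingleton ℚ _ (cls W (h1 hP) hξ))
    have hG : Function.Injective G := by
      rw [← LinearMap.ker_eq_bot, LinearMap.ker_eq_bot']
      rintro ⟨x, t⟩ hx
      obtain ⟨b, hb, rfl⟩ := cls_surj W hB12 x
      have hx' : cls W (h1 hP) (ops.pull_mem π hb) + t • cls W (h1 hP) hξ = 0 := hx
      rw [← cls_smul, ← cls_add, cls_eq_zero] at hx'
      have hx'' : ∀ (c : P.Cycles), P.IsCyc 3 c →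
          W.tr P ((W.map π (W.cl B b) + (t : W.K) • W.cl P ξ) * W.cl P c) = 0 := by
        intro c hc
        have h3 := num_cast W (SmVar.IsCyc.add (ops.pull_mem π hb) (SmVar.IsCyc.smul t hξ)) hc
          (h1 hP)
        rw [hx' c hc, Rat.cast_zero, map_add, cl_smul, W.cl_pull] at h3
        exact h3.symm
      have ht : t = 0 := by
        obtain ⟨c, hc, hne⟩ := exists_deg W hH
        have h3 := hx'' (ops.pull π c) (ops.pull_mem π (cyc_cast hc hB))
        rw [W.cl_pull, add_mul, map_add, ← map_mul, lb_tr_pull W h, zero_add, smul_mul_assoc,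
          map_smul, lb_tr_xi W h, smul_eq_mul] at h3
        exact_mod_cast (mul_eq_zero.1 h3).resolve_right hne
      subst ht
      have hb0 : cls W hB12 hb = 0 := by
        rw [cls_eq_zero]
        intro c hc
        have h3 := hx'' (ops.mul ξ (ops.pull π c))
          (by have := ops.mul_mem hξ (ops.pull_mem π hc); exact this)
        rw [Rat.cast_zero, zero_smul, add_zero, W.cl_mul, W.cl_pull, ← mul_assoc,
          ← cl_comm W hξ, mul_assoc, ← map_mul, lb_tr_xi W h] at h3
        apply rat_inj W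
        rw [num_cast W hb hc hB12, h3, Rat.cast_zero]
      rw [hb0]
      rfl
    have h4 := LinearMap.finrank_le_finrank_of_injective hG
    rw [Module.finrank_prod, Module.finrank_self] at h4
    exact h4
  · intro x hx
    obtain ⟨z, hz, rfl⟩ := cls_surj W (h2 hP) x
    obtain ⟨a, b, ha, hb, hab⟩ := h.span 1 z hz
    have hb0 : cls W hB12 hb = 0 := by
      apply hw
      intro i
      rw [prL_cls]
      apply rat_inj W
      have h3 := B4_cast W hP hz (ops.pull_mem π (w i).2)
      rw [hx i, Rat.cast_zero, hab, W.cl_pull, add_mul, map_add, ← map_mul, lb_tr_pull W h,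
        zero_add, mul_assoc, ← map_mul, lb_tr_xi W h] at h3
      rw [num_cast W hb (w i).2 hB12, ← h3, Rat.cast_zero]
    have hb' : ∀ c, B.IsCyc 2 c → W.tr B (W.cl B b * W.cl B c) = 0 := by
      intro c hc
      have h3 := (cls_eq_zero W hB12 hb).1 hb0 c hc
      rw [← num_cast W hb hc hB12, h3, Rat.cast_zero]
    have hzz : B4 W hP (cls W (h2 hP) hz) (cls W (h2 hP) hz) = 0 := by
      apply rat_inj W
      rw [B4_cast, hab, Rat.cast_zero]
      have ha' : P.IsCyc 2 (ops.pull π a) := ops.pull_mem π ha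
      have hbP : P.IsCyc 1 (ops.pull π b) := ops.pull_mem π hb
      have e1 : (W.map π (W.cl B a) + W.cl P ξ * W.map π (W.cl B b)) *
          (W.map π (W.cl B a) + W.cl P ξ * W.map π (W.cl B b)) =
          W.map π (W.cl B a * W.cl B a) + W.cl P ξ * W.map π (W.cl B b * W.cl B a) +
          W.cl P ξ * W.map π (W.cl B b * W.cl B a) +
          (W.cl P ξ * W.cl P ξ) * W.map π (W.cl B b * W.cl B b) := by
        simp only [map_mul, ← W.cl_pull]
        have c1 := cl_comm W ha' (W.cl P ξ)
        have c2 := cl_comm W ha' (W.cl P (ops.pull π b))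
        have c3 := cl_comm W hbP (W.cl P ξ)
        rw [add_mul, mul_add, mul_add]
        have t1 : W.cl P (ops.pull π a) * (W.cl P ξ * W.cl P (ops.pull π b)) =
            W.cl P ξ * (W.cl P (ops.pull π b) * W.cl P (ops.pull π a)) := by
          rw [← mul_assoc, c1, mul_assoc, c2]
        have t2 : W.cl P ξ * W.cl P (ops.pull π b) * (W.cl P ξ * W.cl P (ops.pull π b)) =
            W.cl P ξ * W.cl P ξ * (W.cl P (ops.pull π b) * W.cl P (ops.pull π b)) := by
          rw [mul_assoc, ← mul_assoc (W.cl P (ops.pull π b)), c3]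
          noncomm_ring
        rw [t1, t2, mul_assoc (W.cl P ξ) (W.cl P (ops.pull π b)) (W.cl P (ops.pull π a))]
        abel
      rw [e1, map_add, map_add, map_add, lb_tr_pull W h, lb_tr_xi W h, hb' a ha, zero_add,
        zero_add, zero_add, ← W.cl_mul, ← W.tr_push, ← W.cl_push]
      have hg : B.IsCyc 1 (ops.push π (ops.mul ξ ξ)) :=
        ops.push_mem π (ops.mul_mem hξ hξ) (by omega)
      rw [← mul_assoc, cl_comm W hg, mul_assoc, ← W.cl_mul]
      exact hb' _ (by have := ops.mul_mem hg hb; exact this)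
    rw [hzz]

end Pool.Agent.K1H98.HS
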