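import Pool.Agent.K1H98.HS.Num

/-!
# The numerical standard conjecture of Hodge type on fourfolds: definitions
-/

set_option autoImplicit false

open CategoryTheory AlgebraicGeometry Module

universe u v

namespace Pool.Agent.K1H98.HS

open Pool.Agent.H914 Pool.Agent.H914.VarClass Pool.Agent.H914.VarClass.Obj
  Pool.Agent.H914.WeilCohomology

variable {k : Type u} [Field k] {𝒱 : VarClass k} {ops : CycleOps 𝒱}

/-- The cycle `z` of codimension `p` on `X` is numerically trivial. -/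
def NumZero (ops : CycleOps 𝒱) (X : 𝒱.Obj) (p : ℕ) (z : X.Cycles) : Prop :=
  ∀ w, X.IsCyc (X.dim - p) w → X.V.degCycle (ops.mul z w) = 0

/-- The standard conjecture of Hodge type in codimension `j`, modulo numerical equivalence, for `X`
(of dimension `n`) and the divisor `D`: if `z` is a cycle of codimension `j` which is not
numerically trivial, and `D ^ (n - 2 j + 1) · z` is numerically trivial, then
`(-1) ^ j deg (z · D ^ (n - 2 j) · z) > 0`. -/
def HodgeNum (ops : CycleOps 𝒱) (X : 𝒱.Obj) (D : X.Cycles) (j : ℕ) : Prop :=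
  ∀ z, X.IsCyc j z →
    NumZero ops X (X.dim - j + 1) (divPow ops D (X.dim - 2 * j + 1) z) → ¬ NumZero ops X j z →
      0 < (-1 : ℚ) ^ j * X.V.degCycle (ops.mul z (divPow ops D (X.dim - 2 * j) z))

/-- The divisor `D` on `X` (of dimension `n`) satisfies `deg D ^ n > 0` and the Hodge index theorem:
`deg (E · D ^ (n - 2) · E) < 0` for all divisors `E` with `deg (E · D ^ (n - 1)) = 0` which are
not numerically trivial. -/
structure HodgeIndex (ops : CycleOps 𝒱) (X : 𝒱.Obj) (D : X.Cycles) : Prop where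
  cyc : X.IsCyc 1 D
  pos : 0 < X.V.degCycle (divPow ops D X.dim X.V.fundCycle)
  neg : ∀ E, X.IsCyc 1 E →
    X.V.degCycle (ops.mul E (divPow ops D (X.dim - 1) X.V.fundCycle)) = 0 →
      ¬ NumZero ops X 1 E → X.V.degCycle (ops.mul E (divPow ops D (X.dim - 2) E)) < 0

/-- The direct image of the fundamental class under `f` is `d` times the fundamental class. -/
def HasDegree (W : WeilCohomology.{u, v} ops) {X' X : 𝒱.Obj} (f : X' ⟶ X) (d : ℕ) : Prop :=
  W.push f 1 = (d : W.K) • 1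

/-- `f` is a morphism of varieties of the same dimension, of degree `d > 0` (so it is surjective
and generically finite). -/
structure IsGenFinite (W : WeilCohomology.{u, v} ops) {X' X : 𝒱.Obj} (f : X' ⟶ X) (d : ℕ) :
    Prop where
  dim : X'.dim = X.dim
  pos : 0 < d
  hasDegree : HasDegree W f d

theorem IsGenFinite.deg {W : WeilCohomology.{u, v} ops} {X' X : 𝒱.Obj} {f : X' ⟶ X} {d : ℕ}
    (h : IsGenFinite W f d) : W.push f 1 = (d : W.K) • 1 := h.hasDegree

/-- The direct image `p_* (ζ ^ m)`. -/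
noncomputable def pushPow (W : WeilCohomology.{u, v} ops) {E Z : 𝒱.Obj} (p : E ⟶ Z) (ζ : E.Cycles)
    (m : ℕ) : W.H Z := W.push p (W.cl E ζ ^ m)

/-- The class `ζ ^ m · p^* b` on `E`. -/
noncomputable def powPull (W : WeilCohomology.{u, v} ops) {E Z : 𝒱.Obj} (p : E ⟶ Z) (ζ : E.Cycles)
    (m : ℕ) (b : Z.Cycles) : W.H E := W.cl E ζ ^ m * W.map p (W.cl Z b)

/-- `π : P ⟶ B` is a `ℙ¹`-bundle (the projectivisation of a vector bundle of rank two), with
tautological divisor `ξ`: the projective bundle theorem, `CH(P) = π^* CH(B) + ξ · π^* CH(B)` and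
`π_* ξ = 1`. -/
structure IsLineBundle (W : WeilCohomology.{u, v} ops) {P B : 𝒱.Obj} (π : P ⟶ B) (ξ : P.Cycles) :
    Prop where
  dim : P.dim = B.dim + 1
  cyc : P.IsCyc 1 ξ
  push_eq : pushPow W π ξ 1 = 1
  span_eq : ∀ (i : ℕ) (z : P.Cycles), P.IsCyc (i + 1) z → ∃ a b, B.IsCyc (i + 1) a ∧ B.IsCyc i b ∧
    W.cl P z = powPull W π ξ 0 a + powPull W π ξ 1 b

theorem IsLineBundle.push {W : WeilCohomology.{u, v} ops} {P B : 𝒱.Obj} {π : P ⟶ B}
    {ξ : P.Cycles} (h : IsLineBundle W π ξ) : W.push π (W.cl P ξ) = 1 := by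
  have := h.push_eq
  rwa [pushPow, pow_one] at this

theorem IsLineBundle.span {W : WeilCohomology.{u, v} ops} {P B : 𝒱.Obj} {π : P ⟶ B}
    {ξ : P.Cycles} (h : IsLineBundle W π ξ) (i : ℕ) (z : P.Cycles) (hz : P.IsCyc (i + 1) z) :
    ∃ a b, B.IsCyc (i + 1) a ∧ B.IsCyc i b ∧
      W.cl P z = W.map π (W.cl B a) + W.cl P ξ * W.map π (W.cl B b) := by
  obtain ⟨a, b, ha, hb, hab⟩ := h.span_eq i z hz
  refine ⟨a, b, ha, hb, ?_⟩
  rw [hab, powPull, powPull, pow_zero, one_mul, pow_one]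

/-- The self-intersection formula `j^* j_* y = - ζ · y`. -/
def SelfIntersection (W : WeilCohomology.{u, v} ops) {X' E : 𝒱.Obj} (j : E ⟶ X') (ζ : E.Cycles) :
    Prop :=
  ∀ y : W.H E, W.map j (W.push j y) = -(W.cl E ζ * y)

/-- The class `f^* a + ∑ j_* (ζ ^ m · p^* (b m))`, the sum over the `m < r`. -/
noncomputable def blowSum (W : WeilCohomology.{u, v} ops) {X' X Z E : 𝒱.Obj} (f : X' ⟶ X)
    (j : E ⟶ X') (p : E ⟶ Z) (ζ : E.Cycles) (r : ℕ) (a : X.Cycles) (b : ℕ → Z.Cycles) : W.H X' :=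
  W.map f (W.cl X a) + ∑ m ∈ Finset.range r, W.push j (powPull W p ζ m (b m))

/-- `f : X' ⟶ X` is the blow-up of `X` along a smooth subvariety `i : Z ⟶ X` of codimension
`c ≥ 2`, with exceptional divisor `j : E ⟶ X'`, which is the projective bundle `p : E ⟶ Z` with
tautological divisor `ζ` (the class `- E|_E`): the formulas for the Chow groups of a blow-up. -/
structure IsBlowUp (W : WeilCohomology.{u, v} ops) {X' X Z E : 𝒱.Obj} (f : X' ⟶ X) (i : Z ⟶ X)
    (j : E ⟶ X') (p : E ⟶ Z) (ζ : E.Cycles) (c : ℕ) : Prop where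
  two_le : 2 ≤ c
  dim : X'.dim = X.dim
  dimZ : Z.dim + c = X.dim
  dimE : E.dim + 1 = X.dim
  cyc : E.IsCyc 1 ζ
  comm : j ≫ f = p ≫ i
  hasDegree : HasDegree W f 1
  selfInt : SelfIntersection W j ζ
  pushPow_lt : ∀ m : ℕ, m + 1 < c → pushPow W p ζ m = 0
  pushPow_eq : pushPow W p ζ (c - 1) = 1
  /-- the cycles on `X'` are generated by the pull-backs of the cycles on `X` and the
  `j_* (ζ ^ m · p^* b)`, `m + 1 < c` -/
  span_eq : ∀ (s : ℕ) (z : X'.Cycles), X'.IsCyc s z → ∃ (a : X.Cycles) (b : ℕ → Z.Cycles),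
    X.IsCyc s a ∧ (∀ m, m + 1 ≤ s → Z.IsCyc (s - (m + 1)) (b m)) ∧ (∀ m, s < m + 1 → b m = 0) ∧
      W.cl X' z = blowSum W f j p ζ (c - 1) a b

section

variable {W : WeilCohomology.{u, v} ops} {X' X Z E : 𝒱.Obj} {f : X' ⟶ X} {i : Z ⟶ X}
  {j : E ⟶ X'} {p : E ⟶ Z} {ζ : E.Cycles} {c : ℕ}

theorem IsBlowUp.deg (h : IsBlowUp W f i j p ζ c) : W.push f 1 = 1 := by
  have := h.hasDegree
  rwa [HasDegree, Nat.cast_one, one_smul] at this

theorem IsBlowUp.self (h : IsBlowUp W f i j p ζ c) (y : W.H E) :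
    W.map j (W.push j y) = -(W.cl E ζ * y) := h.selfInt y

theorem IsBlowUp.push_lt (h : IsBlowUp W f i j p ζ c) (m : ℕ) (hm : m + 1 < c) :
    W.push p (W.cl E ζ ^ m) = 0 := h.pushPow_lt m hm

theorem IsBlowUp.push_eq (h : IsBlowUp W f i j p ζ c) : W.push p (W.cl E ζ ^ (c - 1)) = 1 :=
  h.pushPow_eq

theorem IsBlowUp.span (h : IsBlowUp W f i j p ζ c) (s : ℕ) (z : X'.Cycles) (hz : X'.IsCyc s z) :
    ∃ (a : X.Cycles) (b : ℕ → Z.Cycles),
    X.IsCyc s a ∧ (∀ m, m + 1 ≤ s → Z.IsCyc (s - (m + 1)) (b m)) ∧ (∀ m, s < m + 1 → b m = 0) ∧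
      W.cl X' z = W.map f (W.cl X a) +
        ∑ m ∈ Finset.range (c - 1), W.push j (W.cl E ζ ^ m * W.map p (W.cl Z (b m))) :=
  h.span_eq s z hz

end

/-- Properties of the class of the ample divisors on the varieties of the class `𝒱`. -/
structure IsAmpleness (W : WeilCohomology.{u, v} ops) (Amp : ∀ X : 𝒱.Obj, X.Cycles → Prop) :
    Prop where
  index : ∀ (X : 𝒱.Obj) (D : X.Cycles), Amp X D → HodgeIndex ops X D
  nonempty : ∀ X : 𝒱.Obj, ∃ D, Amp X D
  add : ∀ {X' X : 𝒱.Obj} (f : X' ⟶ X) (d : ℕ), IsGenFinite W f d → ∀ (L : X.Cycles) (A : X'.Cycles),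
    Amp X L → Amp X' A → ∀ ε : ℚ, 0 < ε → Amp X' (ops.pull f L + ε • A)
  mixed : ∀ {X' X : 𝒱.Obj} (f : X' ⟶ X) (d : ℕ), IsGenFinite W f d → X.dim = 4 →
    ∀ (L : X.Cycles) (A : X'.Cycles), Amp X L → Amp X' A →
      0 < X'.V.degCycle (ops.mul (ops.mul A (ops.pull f L)) (ops.mul A (ops.pull f L)))
  /-- the restriction of an ample divisor to the centre of a blow-up is ample -/
  centre : ∀ {X' X Z E : 𝒱.Obj} (f : X' ⟶ X) (i : Z ⟶ X) (j : E ⟶ X') (p : E ⟶ Z) (ζ : E.Cycles)
    (c : ℕ), IsBlowUp W f i j p ζ c → ∀ L : X.Cycles, Amp X L → Amp Z (ops.pull i L)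

/-- There are `r + 1` numerically independent divisors on `X`, and `r` cycles `w i` of codimension
two, such that `deg (z · z) ≥ 0` for all cycles `z` of codimension two with `deg (z · w i) = 0` for
all `i`, for some `r`: the intersection form on the cycles of codimension two has fewer negative
squares than the rank of the group of divisors modulo numerical equivalence. -/
def FewNegativeSquares (ops : CycleOps 𝒱) (X : 𝒱.Obj) : Prop :=
  ∃ (r : ℕ) (E : Fin (r + 1) → X.Cycles) (w : Fin r → X.Cycles),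
    (∀ i, X.IsCyc 1 (E i)) ∧ (∀ a : Fin (r + 1) → ℚ, NumZero ops X 1 (∑ i, a i • E i) → a = 0) ∧
    (∀ i, X.IsCyc 2 (w i)) ∧
    ∀ z, X.IsCyc 2 z → (∀ i, X.V.degCycle (ops.mul z (w i)) = 0) →
      0 ≤ X.V.degCycle (ops.mul z z)

/-- The fourfolds obtained from `ℙ¹`-bundles over threefolds, and from fourfolds for which the
conjecture is known for one ample divisor, by blowing up and blowing down smooth subvarieties and by
passing to images under surjective generically finite morphisms. For the morphisms `f : X' ⟶ X` it is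
required that a divisor `E` on `X'` for which `f^* L · E` is numerically trivial, for one ample
divisor `L`, has the property that `f^* z · E` is numerically trivial for all `z` of codimension
two. (Such a divisor is a combination of divisors which are contracted to points, from which `z`
can be moved away. The condition is void if `f` contracts no divisor to a point.) -/
inductive Reachable (W : WeilCohomology.{u, v} ops) (Amp : ∀ X : 𝒱.Obj, X.Cycles → Prop) :
    𝒱.Obj → Prop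
  | known {X : 𝒱.Obj} {D : X.Cycles} : X.dim = 4 → Amp X D → HodgeNum ops X D 2 →
      Reachable W Amp X
  | bundle {P B : 𝒱.Obj} {π : P ⟶ B} {ξ : P.Cycles} : B.dim = 3 → IsLineBundle W π ξ →
      Reachable W Amp P
  | blowUp {X' X Z E : 𝒱.Obj} {f : X' ⟶ X} {i : Z ⟶ X} {j : E ⟶ X'} {p : E ⟶ Z} {ζ : E.Cycles}
      {c : ℕ} : IsBlowUp W f i j p ζ c → Reachable W Amp X → Reachable W Amp X'
  | blowDown {X' X Z E : 𝒱.Obj} {f : X' ⟶ X} {i : Z ⟶ X} {j : E ⟶ X'} {p : E ⟶ Z} {ζ : E.Cycles}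
      {c : ℕ} : IsBlowUp W f i j p ζ c → Reachable W Amp X' → Reachable W Amp X
  | image {X' X : 𝒱.Obj} {f : X' ⟶ X} {d : ℕ} {L : X.Cycles} : IsGenFinite W f d → Amp X L →
      (∀ E, X'.IsCyc 1 E → NumZero ops X' 2 (ops.mul (ops.pull f L) E) →
        ∀ z, X.IsCyc 2 z → NumZero ops X' 3 (ops.mul (ops.pull f z) E)) →
      Reachable W Amp X' → Reachable W Amp X

end Pool.Agent.K1H98.HS
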