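import Pool.Agent.K1H98.HS.Geo

/-!
# Images of fourfolds under generically finite morphisms
-/

set_option autoImplicit false

open CategoryTheory AlgebraicGeometry Module

universe u v

namespace Pool.Agent.K1H98.HS

open Pool.Agent.H914 Pool.Agent.H914.VarClass Pool.Agent.H914.VarClass.Obj
  Pool.Agent.H914.WeilCohomology

variable {k : Type u} [Field k] {𝒱 : VarClass k} {ops : CycleOps 𝒱}
  (W : WeilCohomology.{u, v} ops)

lemma ell_add_smul {X : 𝒱.Obj} (hX : X.dim = 4) {L A : X.Cycles} (hL : X.IsCyc 1 L)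
    (hA : X.IsCyc 1 A) (ε : ℚ) (hLA : X.IsCyc 1 (L + ε • A)) (c : Nm W X 1 3 (h1 hX)) :
    l4 W hX hLA c = l4 W hX hL c + ε • l4 W hX hA c := by
  obtain ⟨E, hE, rfl⟩ := cls_surj W (h1 hX) c
  rw [ell_cls, ell_cls, ell_cls, ← cls_smul, ← cls_add]
  apply cls_congr
  rw [W.cl_mul, map_add, cl_smul, map_add, cl_smul, W.cl_mul, W.cl_mul, add_mul, smul_mul_assoc]

/-- The trace of a pull-back. -/
lemma tr_map {X' X : 𝒱.Obj} {f : X' ⟶ X} {d : ℕ} (hf : IsGenFinite W f d) (a : W.H X) :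
    W.tr X' (W.map f a) = (d : W.K) * W.tr X a := by
  have h := W.tr_push f 1 a
  rw [hf.deg, one_mul, smul_mul_assoc, one_mul, map_smul, smul_eq_mul] at h
  exact h.symm

theorem hodgeNum_image {X' X : 𝒱.Obj} (hX : X.dim = 4) (hX' : X'.dim = 4) {f : X' ⟶ X} {d : ℕ}
    (hf : IsGenFinite W f d) {L : X.Cycles} (hI : HodgeIndex ops X L) {A : X'.Cycles}
    (hIA : HodgeIndex ops X' A)
    (hadd : ∀ ε : ℚ, 0 < ε → HodgeIndex ops X' (ops.pull f L + ε • A))
    (hmix : 0 < X'.V.degCycle (ops.mul (ops.mul A (ops.pull f L)) (ops.mul A (ops.pull f L))))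
    (hG : ∀ E, X'.IsCyc 1 E → NumZero ops X' 2 (ops.mul (ops.pull f L) E) →
      ∀ z, X.IsCyc 2 z → NumZero ops X' 3 (ops.mul (ops.pull f z) E))
    (h : FewNeg W hX') : HodgeNum ops X L 2 := by
  have hL := hI.cyc
  have hA := hIA.cyc
  have hL' : X'.IsCyc 1 (ops.pull f L) := ops.pull_mem f hL
  rw [hodgeNum_iff W hX hL]
  apply (index_lor W hX hI).strict (form_symm W _) (form_nondeg W _)
  intro x hx
  obtain ⟨z, hz, rfl⟩ := cls_surj W (h2 hX) x
  have hz' : X'.IsCyc 2 (ops.pull f z) := ops.pull_mem f hz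
  set y := cls W (h2 hX') hz' with hy
  have hyy : B4 W hX' y y = (d : ℚ) * B4 W hX (cls W (h2 hX) hz) (cls W (h2 hX) hz) := by
    apply rat_inj W
    rw [B4_cast, Rat.cast_mul, B4_cast, W.cl_pull, ← map_mul, tr_map W hf, Rat.cast_natCast]
  have hd : (0 : ℚ) < d := by exact_mod_cast hf.pos
  suffices hs : 0 ≤ B4 W hX' y y by
    rw [hyy] at hs
    exact nonneg_of_mul_nonneg_right hs hd
  apply limit_pos (B4 W hX') (form_nondeg W _) (l4 W hX' hL') (l4 W hX' hA)
  · intro c e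
    obtain ⟨C, hC, rfl⟩ := cls_surj W (h1 hX') c
    obtain ⟨E, hE, rfl⟩ := cls_surj W (h1 hX') e
    apply rat_inj W
    rw [l4_l4_cast, l4_l4_cast]
    congr 1
    have e1 := cl_comm W hL' (W.cl X' C)
    have e2 := cl_comm W hA (W.cl X' C)
    have e3 := cl_comm W hL' (W.cl X' A)
    calc W.cl X' (ops.pull f L) * W.cl X' C * (W.cl X' A * W.cl X' E)
        = W.cl X' (ops.pull f L) * (W.cl X' C * W.cl X' A) * W.cl X' E := by noncomm_ring
      _ = W.cl X' (ops.pull f L) * (W.cl X' A * W.cl X' C) * W.cl X' E := by rw [e2]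
      _ = (W.cl X' (ops.pull f L) * W.cl X' A) * W.cl X' C * W.cl X' E := by noncomm_ring
      _ = (W.cl X' A * W.cl X' (ops.pull f L)) * W.cl X' C * W.cl X' E := by rw [e3]
      _ = W.cl X' A * (W.cl X' (ops.pull f L) * W.cl X' C) * W.cl X' E := by noncomm_ring
      _ = W.cl X' A * (W.cl X' C * W.cl X' (ops.pull f L)) * W.cl X' E := by rw [e1]
      _ = _ := by noncomm_ring
  · refine ⟨1, one_pos, fun ε hε _ v hv => ?_⟩
    have hI' := hadd ε hε
    have h3 := (hodgeNum_iff W hX' hI'.cyc).1 (hodgeNum_of_fewNeg W hX' hI' h)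
    by_cases hv0 : v = 0
    · rw [hv0, map_zero]
    · apply (h3 v hv0 _).le
      intro c
      rw [ell_add_smul W hX' hL' hA ε hI'.cyc]
      exact hv c
  · intro r hr hr0
    refine (index_lor W hX' hIA).neg' (form_symm W _) (n := cls W (h1 hX') hL') ?_ hr ?_
    · have : B4 W hX' (l4 W hX' hA (cls W (h1 hX') hL')) (l4 W hX' hA (cls W (h1 hX') hL')) =
          X'.V.degCycle (ops.mul (ops.mul A (ops.pull f L)) (ops.mul A (ops.pull f L))) := rfl
      rw [this]
      exact hmix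
    · obtain ⟨E, hE, rfl⟩ := cls_surj W (h1 hX') r
      have h3 : B4 W hX' (l4 W hX' hL' (cls W (h1 hX') hE)) (l4 W hX' hA (cls W (h1 hX') hA)) =
          0 := by rw [hr0, map_zero, LinearMap.zero_apply]
      apply rat_inj W
      rw [← h3, l4_l4_cast, l4_l4_cast]
      congr 1
      have e1 := cl_comm W hL' (W.cl X' E)
      have e2 := cl_comm W hA (W.cl X' E)
      have e3 := cl_comm W hL' (W.cl X' A)
      calc W.cl X' A * W.cl X' E * (W.cl X' A * W.cl X' (ops.pull f L))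
          = W.cl X' A * W.cl X' E * (W.cl X' (ops.pull f L) * W.cl X' A) := by rw [e3]
        _ = W.cl X' A * (W.cl X' E * W.cl X' (ops.pull f L)) * W.cl X' A := by noncomm_ring
        _ = W.cl X' A * (W.cl X' (ops.pull f L) * W.cl X' E) * W.cl X' A := by rw [e1]
        _ = (W.cl X' A * W.cl X' (ops.pull f L)) * W.cl X' E * W.cl X' A := by noncomm_ring
        _ = (W.cl X' (ops.pull f L) * W.cl X' A) * W.cl X' E * W.cl X' A := by rw [e3]
        _ = W.cl X' (ops.pull f L) * (W.cl X' A * W.cl X' E) * W.cl X' A := by noncomm_ring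
        _ = W.cl X' (ops.pull f L) * (W.cl X' E * W.cl X' A) * W.cl X' A := by rw [e2]
        _ = _ := by noncomm_ring
  · intro c
    obtain ⟨E, hE, rfl⟩ := cls_surj W (h1 hX') c
    have hpE : X.IsCyc 1 (ops.push f E) := ops.push_mem f hE (by omega)
    have h3 := hx (cls W (h1 hX) hpE)
    apply rat_inj W
    rw [hy, B4_l4_cast, W.cl_pull, W.cl_pull]
    have h4 : W.map f (W.cl X z) * (W.map f (W.cl X L) * W.cl X' E) =
        W.cl X' E * W.map f (W.cl X z * W.cl X L) := by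
      rw [map_mul, ← mul_assoc, ← W.cl_pull, ← W.cl_pull, mul_assoc, cl_comm W hL',
        ← mul_assoc, cl_comm W hz', mul_assoc]
    rw [h4, ← W.tr_push, ← W.cl_push]
    have h5 := B4_l4_cast W hX hz hL hpE
    rw [h3] at h5
    rw [h5, cl_comm W hpE, mul_assoc]
  · intro r hr0
    obtain ⟨E, hE, rfl⟩ := cls_surj W (h1 hX') r
    have h3 : NumZero ops X' 2 (ops.mul (ops.pull f L) E) := by
      rw [numZero_iff W (h2 hX') (ops.mul_mem hL' hE)]
      exact hr0
    have h4 := hG E hE h3 z hz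
    have h5 := h4 A (by rw [hX']; exact hA)
    apply rat_inj W
    rw [hy, B4_l4_cast, cl_comm W hA, ← mul_assoc, ← W.cl_mul, ← W.cl_mul]
    rw [Rat.cast_zero, W.tr_cl (by
      have := ops.mul_mem (ops.mul_mem hz' hE) hA
      exact cyc_cast this (by omega)), h5, Rat.cast_zero]

end Pool.Agent.K1H98.HS
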