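import Pool.Agent.K1H98.HS.Blow
import Pool.Agent.K1H98.HS.Image

/-!
# Blowing down
-/

set_option autoImplicit false

open CategoryTheory AlgebraicGeometry Module

universe u v

namespace Pool.Agent.K1H98.HS

open Pool.Agent.H914 Pool.Agent.H914.VarClass Pool.Agent.H914.VarClass.Obj
  Pool.Agent.H914.WeilCohomology

variable {k : Type u} [Field k] {𝒱 : VarClass k} {ops : CycleOps 𝒱}
  (W : WeilCohomology.{u, v} ops)

variable {X' X Z E : 𝒱.Obj} {f : X' ⟶ X} {i : Z ⟶ X} {j : E ⟶ X'} {p : E ⟶ Z} {ζ : E.Cycles}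
  {c : ℕ}

/-- The product of the exceptional divisor with a pull-back. -/
lemma bl_exc_pull (h : IsBlowUp W f i j p ζ c) (a : X.Cycles) :
    W.push j (W.cl E ζ ^ 0 * W.map p 1) * W.map f (W.cl X a) =
      W.push j (W.cl E ζ ^ 0 * W.map p (W.map i (W.cl X a))) := by
  rw [← push_mul, pow_zero, one_mul, one_mul, map_one (W.map p), one_mul, ← W.map_comp, h.comm,
    W.map_comp]

lemma centre_cond (hX : X.dim = 4) (hX' : X'.dim = 4) (h : IsBlowUp W f i j p ζ c) {L : X.Cycles}
    (hL : HodgeIndex ops X L) (hLZ : HodgeIndex ops Z (ops.pull i L)) (D : X'.Cycles)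
    (hD : X'.IsCyc 1 D) (h0 : NumZero ops X' 2 (ops.mul (ops.pull f L) D)) (z : X.Cycles)
    (hz : X.IsCyc 2 z) : NumZero ops X' 3 (ops.mul (ops.pull f z) D) := by
  have h2c := h.two_le
  have hdZ := h.dimZ
  have hdE := h.dimE
  have hL' : X'.IsCyc 1 (ops.pull f L) := ops.pull_mem f hL.cyc
  have hz' : X'.IsCyc 2 (ops.pull f z) := ops.pull_mem f hz
  obtain ⟨a, b, ha, hb, hb', hab⟩ := h.span 1 D hD
  have hb0 : Z.IsCyc 0 (b 0) := hb 0 le_rfl
  obtain ⟨t, ht⟩ := deg_zero W hb0
  -- the class of the divisor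
  have hcl : W.cl X' D = W.map f (W.cl X a) + t • W.push j (W.cl E ζ ^ 0 * W.map p 1) := by
    rw [hab]
    congr 1
    rw [show c - 1 = (c - 2) + 1 by omega, Finset.sum_range_succ']
    rw [Finset.sum_eq_zero, zero_add, ht, map_smul, mul_smul_comm, map_smul]
    intro m _
    rw [hb' (m + 1) (by omega), map_zero, map_zero, mul_zero, map_zero]
  -- numerical information
  have h0' : ∀ w, X'.IsCyc 2 w → W.tr X' (W.map f (W.cl X L) * W.cl X' D * W.cl X' w) = 0 := by
    intro w hw
    have h3 := h0 w (by rw [hX']; exact hw)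
    rw [← W.cl_pull, ← W.cl_mul, ← W.cl_mul, W.tr_cl (by
      have := ops.mul_mem (ops.mul_mem hL' hD) hw
      exact cyc_cast this (by omega)), h3, Rat.cast_zero]
  -- the part from `X` is numerically trivial
  have ha0 : cls W (h1 hX) ha = 0 := by
    apply (index_lor W hX hL).nondeg _ (form_symm W _)
    intro e
    obtain ⟨C, hC, rfl⟩ := cls_surj W (h1 hX) e
    apply rat_inj W
    rw [l4_l4_cast, Rat.cast_zero, ← W.cl_mul L C]
    have h3 := h0' (ops.pull f (ops.mul L C)) (ops.pull_mem f (ops.mul_mem hL.cyc hC))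
    rw [hcl, W.cl_pull, mul_add, add_mul, map_add, ← map_mul, ← map_mul, bl_tr_pull W h] at h3
    have h4 : W.map f (W.cl X L) * t • W.push j (W.cl E ζ ^ 0 * W.map p 1) *
        W.map f (W.cl X (ops.mul L C)) =
        t • (W.push j (W.cl E ζ ^ 0 * W.map p 1) * W.map f (W.cl X L * W.cl X (ops.mul L C))) := by
      rw [← W.cl_pull, cl_comm W hL', smul_mul_assoc, smul_mul_assoc, mul_assoc,
        map_mul (W.map f), W.cl_pull]
    rw [h4, map_smul, bl_orth W h (by omega), smul_zero, add_zero] at h3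
    exact h3
  have ha1 : ∀ w, X'.IsCyc 3 w → W.tr X' (W.map f (W.cl X a) * W.cl X' w) = 0 := by
    intro w hw
    have h3 : pullN W f (h1 hX) (h1 hX') (cls W (h1 hX) ha) = 0 := by rw [ha0, map_zero]
    rw [pullN_cls, cls_eq_zero] at h3
    have h4 := num_cast W (ops.pull_mem f ha) hw (h1 hX')
    rw [h3 w hw, Rat.cast_zero, W.cl_pull] at h4
    exact h4.symm
  intro w hw
  have hw1 : X'.IsCyc 1 w := cyc_cast hw (by omega)
  have hcy : X'.IsCyc X'.dim (ops.mul (ops.mul (ops.pull f z) D) w) := by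
    have := ops.mul_mem (ops.mul_mem hz' hD) hw1
    exact cyc_cast this (by omega)
  apply rat_inj W
  rw [← W.tr_cl hcy, W.cl_mul, W.cl_mul, hcl, Rat.cast_zero, mul_add, add_mul, map_add]
  have e1 : W.cl X' (ops.pull f z) * W.map f (W.cl X a) * W.cl X' w =
      W.map f (W.cl X a) * W.cl X' (ops.mul (ops.pull f z) w) := by
    rw [cl_comm W hz', W.cl_mul, mul_assoc]
  rw [e1, ha1 _ (by have := ops.mul_mem hz' hw1; exact this), zero_add]
  have e2 : W.cl X' (ops.pull f z) * t • W.push j (W.cl E ζ ^ 0 * W.map p 1) * W.cl X' w =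
      t • (W.push j (W.cl E ζ ^ 0 * W.map p (W.map i (W.cl X z))) * W.cl X' w) := by
    rw [cl_comm W hz', smul_mul_assoc, smul_mul_assoc, W.cl_pull, bl_exc_pull W h]
  rw [e2, map_smul]
  by_cases hZ2 : Z.dim = 2
  · -- the centre is a surface: then `t = 0`
    have hc2 : c = 2 := by omega
    subst hc2
    have hp1 : W.push p (W.cl E ζ ^ (0 + 0 + 1)) = 1 := h.push_eq
    have hiL : Z.IsCyc 1 (ops.pull i L) := hLZ.cyc
    have h3 := h0' (ops.push j (ops.pull p (ops.pull i L)))
      (ops.push_mem j (ops.pull_mem p hiL) (by omega))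
    have hcy2 : X'.IsCyc 3 (ops.mul (ops.pull f L) (ops.push j (ops.pull p (ops.pull i L)))) := by
      have := ops.mul_mem hL' (ops.push_mem j (q := 2) (ops.pull_mem p hiL) (by omega))
      exact this
    have e3 : W.map f (W.cl X L) * W.cl X' D * W.cl X' (ops.push j (ops.pull p (ops.pull i L))) =
        W.map f (W.cl X a) * W.cl X' (ops.mul (ops.pull f L)
          (ops.push j (ops.pull p (ops.pull i L)))) +
        t • (W.push j (W.cl E ζ ^ 0 * W.map p (W.map i (W.cl X L))) *
          W.push j (W.cl E ζ ^ 0 * W.map p (W.map i (W.cl X L)))) := by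
      rw [hcl, mul_add, add_mul, ← W.cl_pull, cl_comm W hL', W.cl_mul, mul_assoc]
      congr 1
      rw [cl_comm W hL', smul_mul_assoc, smul_mul_assoc, W.cl_pull, bl_exc_pull W h,
        W.cl_push, W.cl_pull, W.cl_pull, pow_zero, one_mul]
    rw [e3, map_add, ha1 _ hcy2, zero_add, map_smul, bl_self W h, hp1, one_mul, smul_neg,
      neg_eq_zero, smul_eq_mul] at h3
    have h4 : W.tr Z (W.map i (W.cl X L) * W.map i (W.cl X L)) ≠ 0 := by
      have h5 := hLZ.pos
      have h6 := W.tr_cl (cyc_cast (dp_mem (ops := ops) hLZ.cyc Z.dim Z.V.fundCycle_mem)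
        (show 0 + Z.dim = Z.dim by omega))
      rw [cl_dp, W.cl_fund, mul_one, hZ2, pow_two, W.cl_pull] at h6
      rw [h6]
      rw [hZ2] at h5
      exact_mod_cast h5.ne'
    rw [(mul_eq_zero.1 h3).resolve_right h4, zero_smul]
  · -- the centre is a curve or a point: then `i^* z = 0`
    have hzz : W.map i (W.cl X z) = 0 := by
      have h3 := W.cl_mem (ops.pull_mem i hz)
      rw [W.gr_eq_bot Z _ (by omega), W.cl_pull] at h3
      exact (Submodule.mem_bot _).1 h3
    rw [hzz, map_zero, mul_zero, map_zero, zero_mul, map_zero, smul_zero]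

end Pool.Agent.K1H98.HS
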