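import Pool.Agent.K1H98.HS.Defs

/-!
# The conjecture on a fourfold and the index of the intersection form
-/

set_option autoImplicit false

open CategoryTheory AlgebraicGeometry Module

universe u v

namespace Pool.Agent.K1H98.HS

open Pool.Agent.H914 Pool.Agent.H914.VarClass Pool.Agent.H914.VarClass.Obj
  Pool.Agent.H914.WeilCohomology

variable {k : Type u} [Field k] {𝒱 : VarClass k} {ops : CycleOps 𝒱}
  (W : WeilCohomology.{u, v} ops) {X : 𝒱.Obj}

lemma cl_dp (D : X.Cycles) (i : ℕ) (z : X.Cycles) :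
    W.cl X (divPow ops D i z) = W.cl X D ^ i * W.cl X z := by
  induction i with
  | zero => rw [pow_zero, one_mul]; rfl
  | succ i ih =>
    rw [divPow, Function.iterate_succ_apply', W.cl_mul, pow_succ', mul_assoc, ← ih]
    rfl

lemma dp_mem {D : X.Cycles} (hD : X.IsCyc 1 D) (i : ℕ) {j : ℕ} {z : X.Cycles}
    (hz : X.IsCyc j z) : X.IsCyc (j + i) (divPow ops D i z) := by
  induction i with
  | zero => exact hz
  | succ i ih =>
    rw [divPow, Function.iterate_succ_apply', show j + (i + 1) = 1 + (j + i) by ring]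
    exact ops.mul_mem hD ih

lemma cyc_cast {p q : ℕ} {z : X.Cycles} (hz : X.IsCyc p z) (h : p = q) : X.IsCyc q z := h ▸ hz

lemma numZero_iff {p q : ℕ} (h : p + q = X.dim) {z : X.Cycles} (hz : X.IsCyc p z) :
    NumZero ops X p z ↔ cls W h hz = 0 := by
  rw [cls_eq_zero]
  have h1 : X.dim - p = q := by omega
  unfold NumZero
  rw [h1]
  rfl

/-- Classes of cycles commute. -/
lemma comm_cl {p : ℕ} {z : X.Cycles} (hz : X.IsCyc p z) (a : W.H X) : Commute (W.cl X z) a :=
  cl_comm W hz a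

variable (hX : X.dim = 4)

lemma h2 {X : 𝒱.Obj} (hX : X.dim = 4) : 2 + 2 = X.dim := by omega
lemma h1 {X : 𝒱.Obj} (hX : X.dim = 4) : 1 + 3 = X.dim := by omega

/-- The form on the classes of codimension two. -/
noncomputable abbrev B4 : Nm W X 2 2 (h2 hX) →ₗ[ℚ] Nm W X 2 2 (h2 hX) →ₗ[ℚ] ℚ :=
  form W X (h2 hX)

/-- The multiplication by a divisor. -/
noncomputable abbrev l4 {D : X.Cycles} (hD : X.IsCyc 1 D) :
    Nm W X 1 3 (h1 hX) →ₗ[ℚ] Nm W X 2 2 (h2 hX) :=
  ell W (h2 hX) (h1 hX) hD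

lemma B4_cast {z w : X.Cycles} (hz : X.IsCyc 2 z) (hw : X.IsCyc 2 w) :
    ((B4 W hX (cls W (h2 hX) hz) (cls W (h2 hX) hw) : ℚ) : W.K) =
      W.tr X (W.cl X z * W.cl X w) := by
  rw [form_cls, num_cast W hz hw (h2 hX)]

lemma B4_l4_cast {z D E : X.Cycles} (hz : X.IsCyc 2 z) (hD : X.IsCyc 1 D) (hE : X.IsCyc 1 E) :
    ((B4 W hX (cls W (h2 hX) hz) (l4 W hX hD (cls W (h1 hX) hE)) : ℚ) : W.K) =
      W.tr X (W.cl X z * (W.cl X D * W.cl X E)) := by
  rw [ell_cls, B4_cast, W.cl_mul]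

lemma l4_l4_cast {D E D' E' : X.Cycles} (hD : X.IsCyc 1 D) (hE : X.IsCyc 1 E)
    (hD' : X.IsCyc 1 D') (hE' : X.IsCyc 1 E') :
    ((B4 W hX (l4 W hX hD (cls W (h1 hX) hE)) (l4 W hX hD' (cls W (h1 hX) hE')) : ℚ) : W.K) =
      W.tr X ((W.cl X D * W.cl X E) * (W.cl X D' * W.cl X E')) := by
  rw [ell_cls, ell_cls, B4_cast, W.cl_mul, W.cl_mul]

lemma index_lor {D : X.Cycles} (hI : HodgeIndex ops X D) :
    Lor (B4 W hX) (l4 W hX hI.cyc) (cls W (h1 hX) hI.cyc) := by
  have hD := hI.cyc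
  constructor
  · have h3 := hI.pos
    have h4 : B4 W hX (l4 W hX hD (cls W (h1 hX) hD)) (l4 W hX hD (cls W (h1 hX) hD)) =
        X.V.degCycle (divPow ops D X.dim X.V.fundCycle) := by
      apply rat_inj W
      rw [l4_l4_cast, ← W.tr_cl (cyc_cast (dp_mem hD X.dim X.V.fundCycle_mem) (by omega)),
        cl_dp, W.cl_fund, hX]
      congr 1
      noncomm_ring
    rw [h4]
    exact h3
  · intro e he h3
    obtain ⟨E, hE, rfl⟩ := cls_surj W (h1 hX) e
    have hc : Commute (W.cl X E) (W.cl X D) := comm_cl W hE _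
    have h4 := hI.neg E hE (by
      apply rat_inj W
      rw [← W.tr_cl (by
          have := ops.mul_mem hE (dp_mem (ops := ops) hD (X.dim - 1) X.V.fundCycle_mem)
          exact cyc_cast this (by omega)), W.cl_mul, cl_dp, W.cl_fund, mul_one, Rat.cast_zero,
        show X.dim - 1 = 3 by omega, (hc.pow_right 3).eq]
      have h5 := l4_l4_cast W hX hD hD hD hE
      rw [h3, Rat.cast_zero] at h5
      rw [h5]
      congr 1
      noncomm_ring) (by
      rw [numZero_iff W (h1 hX) hE]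
      exact he)
    have h6 : B4 W hX (l4 W hX hD (cls W (h1 hX) hE)) (l4 W hX hD (cls W (h1 hX) hE)) =
        X.V.degCycle (ops.mul E (divPow ops D (X.dim - 2) E)) := by
      apply rat_inj W
      rw [l4_l4_cast, ← W.tr_cl (by
          have := ops.mul_mem hE (dp_mem (ops := ops) hD (X.dim - 2) hE)
          exact cyc_cast this (by omega)), W.cl_mul, cl_dp, show X.dim - 2 = 2 by omega,
        ← mul_assoc (W.cl X E), (hc.pow_right 2).eq]
      congr 1
      have : W.cl X D * W.cl X E * (W.cl X D * W.cl X E) =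
          W.cl X D * (W.cl X E * W.cl X D) * W.cl X E := by noncomm_ring
      rw [this, hc.eq]
      noncomm_ring
    rw [h6]
    exact h4

lemma hodgeNum_iff {D : X.Cycles} (hD : X.IsCyc 1 D) : HodgeNum ops X D 2 ↔
    ∀ x, x ≠ 0 → (∀ c, B4 W hX x (l4 W hX hD c) = 0) → 0 < B4 W hX x x := by
  have e1 : X.dim - 2 * 2 + 1 = 1 := by omega
  have e2 : X.dim - 2 * 2 = 0 := by omega
  have e3 : X.dim - 2 + 1 = 3 := by omega
  have key : ∀ z (hz : X.IsCyc 2 z), NumZero ops X 3 (divPow ops D 1 z) ↔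
      ∀ c, B4 W hX (cls W (h2 hX) hz) (l4 W hX hD c) = 0 := by
    intro z hz
    have e4 : X.dim - 3 = 1 := by omega
    unfold NumZero
    rw [e4]
    have h3 : ∀ E (hE : X.IsCyc 1 E), X.V.degCycle (ops.mul (divPow ops D 1 z) E) =
        B4 W hX (cls W (h2 hX) hz) (l4 W hX hD (cls W (h1 hX) hE)) := by
      intro E hE
      apply rat_inj W
      rw [B4_l4_cast, ← W.tr_cl (by
        have := ops.mul_mem (dp_mem (ops := ops) hD 1 hz) hE
        exact cyc_cast this (by omega)), W.cl_mul, cl_dp, pow_one, cl_comm W hD, mul_assoc]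
    constructor
    · intro h c
      obtain ⟨E, hE, rfl⟩ := cls_surj W (h1 hX) c
      rw [← h3]
      exact h E hE
    · intro h E hE
      rw [h3 E hE]
      exact h _
  unfold HodgeNum
  rw [e1, e2, e3]
  constructor
  · intro h x hx hxc
    obtain ⟨z, hz, rfl⟩ := cls_surj W (h2 hX) x
    have h4 := h z hz ((key z hz).2 hxc) (by rwa [numZero_iff W (h2 hX) hz])
    rw [neg_one_sq, one_mul] at h4
    exact h4
  · intro h z hz hz0 hne
    have h4 := h (cls W (h2 hX) hz) (by rwa [numZero_iff W (h2 hX) hz] at hne) ((key z hz).1 hz0)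
    rw [neg_one_sq, one_mul]
    exact h4

/-- The rank of the divisors modulo numerical equivalence. -/
noncomputable def rho : ℕ := finrank ℚ (Nm W X 1 3 (h1 hX))

/-- The intersection form on the cycles of codimension two has fewer than `ρ` negative squares. -/
def FewNeg : Prop := ∃ (r : ℕ) (w : Fin r → Nm W X 2 2 (h2 hX)), r < rho W hX ∧
  ∀ z, (∀ i, B4 W hX z (w i) = 0) → 0 ≤ B4 W hX z z

lemma fewNeg_of_hodgeNum {D : X.Cycles} (hI : HodgeIndex ops X D) (h : HodgeNum ops X D 2) :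
    FewNeg W hX :=
  conv (index_lor W hX hI) (form_symm W _) ((hodgeNum_iff W hX hI.cyc).1 h)

lemma hodgeNum_of_fewNeg {D : X.Cycles} (hI : HodgeIndex ops X D) (h : FewNeg W hX) :
    HodgeNum ops X D 2 := by
  obtain ⟨r, w, hr, hw⟩ := h
  exact (hodgeNum_iff W hX hI.cyc).2
    (crit (index_lor W hX hI) (form_symm W _) (form_nondeg W _) hr w hw)

end Pool.Agent.K1H98.HS
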