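import Mathlib

/-!
# Linear algebra: forms with few negative squares, and a limit argument
-/

set_option autoImplicit false
set_option linter.unusedSectionVars false

open Module Matrix

namespace Pool.Agent.K1H98.HS

section Crit

variable {V A : Type*} [AddCommGroup V] [Module ℚ V] [FiniteDimensional ℚ V]
  [AddCommGroup A] [Module ℚ A] [FiniteDimensional ℚ A]

/-- The form `B` on `ℓ(A)` is of Lorentz type: positive on `ℓ h` and negative definite on the
orthogonal complement. -/
structure Lor (B : V →ₗ[ℚ] V →ₗ[ℚ] ℚ) (ℓ : A →ₗ[ℚ] V) (h : A) : Prop where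
  pos : 0 < B (ℓ h) (ℓ h)
  neg : ∀ a, a ≠ 0 → B (ℓ h) (ℓ a) = 0 → B (ℓ a) (ℓ a) < 0

variable {B : V →ₗ[ℚ] V →ₗ[ℚ] ℚ} {ℓ : A →ₗ[ℚ] V} {h : A}

/-- The form on `A` is nondegenerate. -/
lemma Lor.nondeg (H : Lor B ℓ h) {a : A} (ha : ∀ c, B (ℓ a) (ℓ c) = 0)
    (hs : ∀ x y, B x y = B y x) : a = 0 := by
  by_contra hne
  have h1 := H.neg a hne (by rw [hs]; exact ha h)
  rw [ha a] at h1
  exact lt_irrefl _ h1

/-- Decomposition of `V` as the sum of `ℓ(A)` and its orthogonal complement. -/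
lemma Lor.decomp (H : Lor B ℓ h) (hs : ∀ x y, B x y = B y x) (v : V) :
    ∃ a, ∀ c, B (v - ℓ a) (ℓ c) = 0 := by
  let G : A →ₗ[ℚ] (A →ₗ[ℚ] ℚ) := (B.compl₁₂ ℓ ℓ)
  have hG : Function.Injective G := by
    rw [← LinearMap.ker_eq_bot, LinearMap.ker_eq_bot']
    intro a ha
    apply H.nondeg _ hs
    intro c
    exact LinearMap.congr_fun ha c
  have hG' : Function.Surjective G := by
    have hd : finrank ℚ A = finrank ℚ (A →ₗ[ℚ] ℚ) := (Subspace.dual_finrank_eq).symm
    exact (LinearMap.injective_iff_surjective_of_finrank_eq_finrank hd).1 hG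
  obtain ⟨a, ha⟩ := hG' ((B v).comp ℓ)
  refine ⟨a, fun c => ?_⟩
  have h1 := LinearMap.congr_fun ha c
  change B (ℓ a) (ℓ c) = B v (ℓ c) at h1
  rw [map_sub, LinearMap.sub_apply, h1, sub_self]

/-- If the form is nonnegative on the complement of `ℓ(A)`, it is positive there. -/
lemma Lor.strict (H : Lor B ℓ h) (hs : ∀ x y, B x y = B y x) (hn : ∀ x, (∀ y, B x y = 0) → x = 0)
    (h0 : ∀ z, (∀ c, B z (ℓ c) = 0) → 0 ≤ B z z) :
    ∀ z, z ≠ 0 → (∀ c, B z (ℓ c) = 0) → 0 < B z z := by
  intro z hz hzc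
  refine lt_of_le_of_ne (h0 z hzc) fun heq => hz ?_
  apply hn
  have key : ∀ y, (∀ c, B y (ℓ c) = 0) → B z y = 0 := by
    intro y hy
    by_contra hne
    -- the discriminant argument
    have h1 : ∀ s : ℚ, 0 ≤ 2 * s * B z y + s * s * B y y := by
      intro s
      have h2 := h0 (z + s • y) (fun c => by
        rw [map_add, LinearMap.add_apply, hzc, map_smul, LinearMap.smul_apply, hy, smul_zero,
          add_zero])
      have h3 : B (z + s • y) (z + s • y) = 2 * s * B z y + s * s * B y y := by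
        simp only [map_add, map_smul, LinearMap.add_apply, LinearMap.smul_apply, smul_eq_mul]
        rw [← heq, hs y z]; ring
      rwa [h3] at h2
    have h4 : 0 ≤ B y y := h0 y hy
    by_cases h5 : B y y = 0
    · have := h1 (-(B z y))
      rw [h5] at this
      nlinarith [mul_self_pos.2 hne]
    · have h6 : 0 < B y y := lt_of_le_of_ne h4 (Ne.symm h5)
      have := h1 (-(B z y) / B y y)
      have h7 : 2 * (-(B z y) / B y y) * B z y + (-(B z y) / B y y) * (-(B z y) / B y y) * B y y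
          = -(B z y * B z y) / B y y := by
        field_simp; ring
      rw [h7] at this
      have h8 : -(B z y * B z y) / B y y < 0 :=
        div_neg_of_neg_of_pos (by nlinarith [mul_self_pos.2 hne]) h6
      linarith
  intro y
  obtain ⟨a, ha⟩ := H.decomp hs y
  have h1 := key _ ha
  rw [map_sub, hzc, sub_zero] at h1
  exact h1

/-- **Index criterion.** If the form is nonnegative on the orthogonal complement of fewer than
`dim A` vectors, it is positive on the nonzero vectors orthogonal to `ℓ(A)`. -/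
theorem crit (H : Lor B ℓ h) (hs : ∀ x y, B x y = B y x) (hn : ∀ x, (∀ y, B x y = 0) → x = 0)
    {r : ℕ} (hr : r < finrank ℚ A) (w : Fin r → V)
    (hw : ∀ z, (∀ i, B z (w i) = 0) → 0 ≤ B z z) :
    ∀ z, z ≠ 0 → (∀ c, B z (ℓ c) = 0) → 0 < B z z := by
  apply H.strict hs hn
  intro z hz
  by_contra hneg
  push Not at hneg
  let Φ : (ℚ × A) →ₗ[ℚ] ((Fin r → ℚ) × ℚ) :=
    { toFun := fun x => (fun i => B (x.1 • z + ℓ x.2) (w i), B (ℓ h) (ℓ x.2))
      map_add' := by
        intro x y
        ext i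
        · simp only [Prod.fst_add, Prod.snd_add, add_smul, map_add, LinearMap.add_apply,
            Pi.add_apply]; ring
        · simp
      map_smul' := by
        intro m x
        ext i
        · simp only [Prod.smul_fst, Prod.smul_snd, smul_eq_mul, map_add, map_smul, mul_smul,
            LinearMap.add_apply, LinearMap.smul_apply, RingHom.id_apply, Pi.smul_apply, mul_add]
        · simp }
  have hlt : finrank ℚ ((Fin r → ℚ) × ℚ) < finrank ℚ (ℚ × A) := by
    simp only [Module.finrank_prod, Module.finrank_pi, Fintype.card_fin, Module.finrank_self]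
    omega
  obtain ⟨x, hx, hx0⟩ : ∃ x ∈ LinearMap.ker Φ, x ≠ 0 := by
    have := LinearMap.ker_ne_bot_of_finrank_lt (f := Φ) hlt
    exact (Submodule.ne_bot_iff _).1 this
  rw [LinearMap.mem_ker] at hx
  have h1 : ∀ i, B (x.1 • z + ℓ x.2) (w i) = 0 := fun i => congrFun (congrArg Prod.fst hx) i
  have h2 : B (ℓ h) (ℓ x.2) = 0 := congrArg Prod.snd hx
  have h3 := hw _ h1
  have h4 : B (x.1 • z + ℓ x.2) (x.1 • z + ℓ x.2) = x.1 * x.1 * B z z + B (ℓ x.2) (ℓ x.2) := by
    simp only [map_add, map_smul, LinearMap.add_apply, LinearMap.smul_apply, smul_eq_mul]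
    rw [hs (ℓ x.2) z, hz x.2]; ring
  rw [h4] at h3
  by_cases hx2 : x.2 = 0
  · have hx1 : x.1 ≠ 0 := fun h => hx0 (Prod.ext h hx2)
    rw [hx2, map_zero, map_zero, add_zero] at h3
    nlinarith [mul_self_pos.2 hx1]
  · have h5 := H.neg _ hx2 h2
    nlinarith [mul_self_nonneg x.1]

/-- The converse of the index criterion. -/
theorem conv (H : Lor B ℓ h) (hs : ∀ x y, B x y = B y x)
    (hp : ∀ z, z ≠ 0 → (∀ c, B z (ℓ c) = 0) → 0 < B z z) :
    ∃ (r : ℕ) (w : Fin r → V), r < finrank ℚ A ∧ ∀ z, (∀ i, B z (w i) = 0) → 0 ≤ B z z := by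
  let φ : A →ₗ[ℚ] ℚ := (B (ℓ h)).comp ℓ
  let K := LinearMap.ker φ
  have hK : finrank ℚ K + 1 = finrank ℚ A := by
    have h1 := LinearMap.finrank_range_add_finrank_ker φ
    have h2 : LinearMap.range φ = ⊤ := by
      rw [LinearMap.range_eq_top]
      intro c
      refine ⟨(c / B (ℓ h) (ℓ h)) • h, ?_⟩
      change B (ℓ h) (ℓ ((c / B (ℓ h) (ℓ h)) • h)) = c
      rw [map_smul, map_smul, smul_eq_mul, div_mul_cancel₀ _ H.pos.ne']
    rw [h2, finrank_top, Module.finrank_self] at h1
    change 1 + finrank ℚ K = finrank ℚ A at h1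
    omega
  let b := Module.finBasis ℚ K
  refine ⟨finrank ℚ K, fun i => ℓ (b i), by omega, fun z hz => ?_⟩
  have hzK : ∀ a ∈ K, B z (ℓ a) = 0 := by
    intro a ha
    have h1 : (B z).comp (ℓ.comp K.subtype) = 0 := by
      apply b.ext
      intro i
      exact hz i
    exact LinearMap.congr_fun h1 ⟨a, ha⟩
  obtain ⟨a, ha⟩ := H.decomp hs z
  -- `a` is a multiple of `h`
  set t : ℚ := B (ℓ h) (ℓ a) / B (ℓ h) (ℓ h) with ht
  have hpos := H.pos
  have ha' : a - t • h ∈ K := by
    rw [LinearMap.mem_ker]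
    change B (ℓ h) (ℓ (a - t • h)) = 0
    rw [map_sub, map_sub, map_smul, map_smul, smul_eq_mul, ht, div_mul_cancel₀ _ hpos.ne',
      sub_self]
  have h0 : a - t • h = 0 := by
    by_contra hne
    have h1 := H.neg _ hne (LinearMap.mem_ker.1 ha')
    have h2 : B (ℓ a) (ℓ (a - t • h)) = 0 := by
      have h3 := ha (a - t • h)
      rw [map_sub, LinearMap.sub_apply, hzK _ ha', zero_sub, neg_eq_zero] at h3
      exact h3
    have h3 : B (ℓ h) (ℓ (a - t • h)) = 0 := LinearMap.mem_ker.1 ha'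
    have h4 : B (ℓ (a - t • h)) (ℓ (a - t • h)) = 0 := by
      have : B (ℓ (a - t • h)) = B (ℓ a) - t • B (ℓ h) := by rw [map_sub, map_sub, map_smul, map_smul]
      rw [this, LinearMap.sub_apply, LinearMap.smul_apply, h2, h3, smul_zero, sub_zero]
    rw [h4] at h1
    exact lt_irrefl _ h1
  have ha2 : a = t • h := sub_eq_zero.1 h0
  set y := z - ℓ a with hy
  have hz2 : z = y + t • ℓ h := by rw [hy, ha2, map_smul, sub_add_cancel]
  have h5 : B z z = B y y + t * t * B (ℓ h) (ℓ h) := by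
    rw [hz2]
    simp only [map_add, map_smul, LinearMap.add_apply, LinearMap.smul_apply, smul_eq_mul]
    rw [hs (ℓ h) y, ha h]; ring
  rw [h5]
  have h6 : 0 ≤ B y y := by
    by_cases h7 : y = 0
    · rw [h7, map_zero]
    · exact (hp y h7 ha).le
  nlinarith [mul_self_nonneg t]

/-- In a Lorentz space a nonzero vector orthogonal to a positive vector is negative. -/
lemma Lor.neg' (H : Lor B ℓ h) (hs : ∀ x y, B x y = B y x) {n r : A}
    (hn : 0 < B (ℓ n) (ℓ n)) (hr : r ≠ 0) (hrn : B (ℓ r) (ℓ n) = 0) : B (ℓ r) (ℓ r) < 0 := by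
  by_contra hneg
  push Not at hneg
  -- a combination of `n` and `r` orthogonal to `h`
  set x : ℚ := B (ℓ h) (ℓ r) with hx
  set y : ℚ := B (ℓ h) (ℓ n) with hy
  have h1 : B (ℓ h) (ℓ (x • n - y • r)) = 0 := by
    rw [map_sub, map_sub, map_smul, map_smul, map_smul, map_smul, smul_eq_mul, smul_eq_mul,
      ← hx, ← hy]; ring
  have h2 : B (ℓ (x • n - y • r)) (ℓ (x • n - y • r)) =
      x * x * B (ℓ n) (ℓ n) + y * y * B (ℓ r) (ℓ r) := by
    simp only [map_sub, map_smul, LinearMap.sub_apply, LinearMap.smul_apply, smul_eq_mul]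
    rw [hs (ℓ n) (ℓ r), hrn]; ring
  by_cases hv : x • n - y • r = 0
  · -- then `x = 0`, and `y = 0` or ...
    have h3 : x * B (ℓ n) (ℓ n) = 0 := by
      have h4 := congrArg (fun a => B (ℓ a) (ℓ n)) hv
      simp only [map_sub, map_smul, LinearMap.sub_apply, LinearMap.smul_apply, smul_eq_mul,
        map_zero, LinearMap.zero_apply] at h4
      rw [hrn] at h4; linarith
    have hx0 : x = 0 := (mul_eq_zero.1 h3).resolve_right hn.ne'
    have h5 := H.neg r hr (by rw [← hx]; exact hx0)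
    linarith
  · have h3 := H.neg _ hv h1
    rw [h2] at h3
    nlinarith [mul_self_nonneg x, mul_self_nonneg y]

end Crit

section Limit

/-- **Limits of nonnegative subspaces.** -/
theorem limit_fin {V : Type*} [AddCommGroup V] [Module ℚ V] {m : ℕ}
    (B : V →ₗ[ℚ] V →ₗ[ℚ] ℚ) (T0 T1 : V →ₗ[ℚ] (Fin m → ℚ)) (hT : Function.Surjective T0)
    (h : ∃ ε0 : ℚ, 0 < ε0 ∧ ∀ ε, 0 < ε → ε < ε0 → ∀ z, T0 z + ε • T1 z = 0 → 0 ≤ B z z)
    (z : V) (hz : T0 z = 0) : 0 ≤ B z z := by
  obtain ⟨ε0, hε0, h⟩ := h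
  obtain ⟨S, hS⟩ := T0.exists_rightInverse_of_surjective (LinearMap.range_eq_top.2 hT)
  have hS' : ∀ x, T0 (S x) = x := fun x => LinearMap.congr_fun hS x
  let M : Matrix (Fin m) (Fin m) ℚ := LinearMap.toMatrix' (T1 ∘ₗ S)
  let N : ℚ → Matrix (Fin m) (Fin m) ℚ := fun ε => 1 + ε • M
  let a : ℚ → (Fin m → ℚ) := fun ε => (N ε).adjugate.mulVec (T1 z)
  let p : ℚ → ℚ := fun ε => (N ε).det
  let u : ℚ → V := fun ε => p ε • z - ε • S (a ε)
  have hker : ∀ ε, T0 (u ε) + ε • T1 (u ε) = 0 := by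
    intro ε
    have h1 : T1 (S (a ε)) = M.mulVec (a ε) := by
      have := LinearMap.toMatrix'_mulVec (T1 ∘ₗ S) (a ε)
      rw [this]; rfl
    have h2 : a ε + ε • M.mulVec (a ε) = p ε • T1 z := by
      have h3 : (N ε).mulVec (a ε) = p ε • T1 z := by
        change (N ε).mulVec ((N ε).adjugate.mulVec (T1 z)) = _
        rw [Matrix.mulVec_mulVec, Matrix.mul_adjugate, Matrix.smul_mulVec, Matrix.one_mulVec]
      rw [← h3]
      change _ = (1 + ε • M).mulVec (a ε)
      rw [Matrix.add_mulVec, Matrix.one_mulVec, Matrix.smul_mulVec]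
    change T0 (p ε • z - ε • S (a ε)) + ε • T1 (p ε • z - ε • S (a ε)) = 0
    rw [map_sub, map_sub, map_smul, map_smul, map_smul, map_smul, hz, smul_zero, hS', h1,
      smul_sub, zero_sub]
    have h4 : ε • (p ε • T1 z) = ε • a ε + ε • (ε • M.mulVec (a ε)) := by
      rw [← h2, smul_add]
    rw [h4]; abel
  have hcont : Continuous fun ε => B (u ε) (u ε) := by
    have hN : Continuous N := by
      change Continuous fun ε : ℚ => (1 : Matrix (Fin m) (Fin m) ℚ) + ε • M
      fun_prop
    have hp : Continuous p := hN.matrix_det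
    have ha : Continuous a := hN.matrix_adjugate.matrix_mulVec continuous_const
    have hai : ∀ i, Continuous fun ε => a ε i := fun i => (continuous_apply i).comp ha
    have hSa : ∀ ε, S (a ε) = ∑ i, a ε i • S (Pi.single i 1) := by
      intro ε
      conv_lhs => rw [LinearMap.pi_apply_eq_sum_univ S (a ε)]
      apply Finset.sum_congr rfl
      intro i _
      congr 2
      ext j
      by_cases hij : i = j
      · subst hij; simp
      · simp [hij, Ne.symm hij]
    have h1 : (fun ε => B (u ε) (u ε)) = fun ε => p ε * p ε * B z z -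
        ε * p ε * (∑ i, a ε i * B z (S (Pi.single i 1))) -
        ε * p ε * (∑ i, a ε i * B (S (Pi.single i 1)) z) +
        ε * ε * (∑ i, ∑ j, a ε i * (a ε j * B (S (Pi.single i 1)) (S (Pi.single j 1)))) := by
      funext ε
      have e1 : B z (S (a ε)) = ∑ i, a ε i * B z (S (Pi.single i 1)) := by
        rw [hSa]; simp only [map_sum, map_smul, smul_eq_mul]
      have e2 : B (S (a ε)) z = ∑ i, a ε i * B (S (Pi.single i 1)) z := by
        rw [hSa]; simp only [map_sum, map_smul, LinearMap.sum_apply, LinearMap.smul_apply,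
          smul_eq_mul]
      have e3 : B (S (a ε)) (S (a ε)) =
          ∑ i, ∑ j, a ε i * (a ε j * B (S (Pi.single i 1)) (S (Pi.single j 1))) := by
        rw [hSa]
        simp only [map_sum, map_smul, LinearMap.sum_apply, LinearMap.smul_apply, smul_eq_mul,
          Finset.mul_sum]
        rw [Finset.sum_comm]
        apply Finset.sum_congr rfl
        intro i _
        apply Finset.sum_congr rfl
        intro j _
        ring
      change B (p ε • z - ε • S (a ε)) (p ε • z - ε • S (a ε)) = _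
      rw [← e1, ← e2, ← e3]
      simp only [map_sub, map_smul, LinearMap.sub_apply, LinearMap.smul_apply, smul_eq_mul]
      ring
    rw [h1]
    have h2 : Continuous fun ε : ℚ => ∑ i, a ε i * B z (S (Pi.single i 1)) :=
      continuous_finsetSum _ fun i _ => (hai i).mul continuous_const
    have h3 : Continuous fun ε : ℚ => ∑ i, a ε i * B (S (Pi.single i 1)) z :=
      continuous_finsetSum _ fun i _ => (hai i).mul continuous_const
    have h4 : Continuous fun ε : ℚ => ∑ i, ∑ j, a ε i * (a ε j *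
        B (S (Pi.single i 1)) (S (Pi.single j 1))) :=
      continuous_finsetSum _ fun i _ => continuous_finsetSum _ fun j _ =>
        (hai i).mul ((hai j).mul continuous_const)
    exact (((hp.mul hp).mul continuous_const).sub ((continuous_id.mul hp).mul h2) |>.sub
      ((continuous_id.mul hp).mul h3)).add ((continuous_id.mul continuous_id).mul h4)
  have h0 : B (u 0) (u 0) = B z z := by
    have : u 0 = z := by
      change (N 0).det • z - (0 : ℚ) • S (a 0) = z
      change (1 + (0 : ℚ) • M).det • z - (0 : ℚ) • S (a 0) = z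
      rw [zero_smul, add_zero, Matrix.det_one, one_smul, zero_smul, sub_zero]
    rw [this]
  rw [← h0]
  have hle : ∀ n : ℕ, 0 ≤ B (u (ε0 / (n + 2))) (u (ε0 / (n + 2))) := by
    intro n
    have hn : (0 : ℚ) < (n : ℚ) + 2 := by positivity
    apply h (ε0 / (n + 2)) (div_pos hε0 hn) _ _ (hker _)
    rw [div_lt_iff₀ hn]
    nlinarith [(Nat.cast_nonneg n : (0 : ℚ) ≤ n)]
  have ht : Filter.Tendsto (fun n : ℕ => ε0 / ((n : ℚ) + 2)) Filter.atTop (nhds 0) := by
    have h1 : Filter.Tendsto (fun n : ℕ => (n : ℚ) + 2) Filter.atTop Filter.atTop :=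
      Filter.tendsto_atTop_add_const_right _ _ tendsto_natCast_atTop_atTop
    exact h1.const_div_atTop ε0
  exact ge_of_tendsto ((hcont.tendsto 0).comp ht) (Filter.Eventually.of_forall hle)

/-- **The limit argument.** Suppose that for all small rational `ε > 0` the form is nonnegative on the
orthogonal complement of the image of `ℓ + ε a`, and that it is negative on `a r` for `r ≠ 0` in
the kernel of `ℓ`. Then it is nonnegative on the vectors orthogonal to the image of `ℓ` and to
`a (ker ℓ)`. -/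
theorem limit_pos {V A : Type*} [AddCommGroup V] [Module ℚ V] [FiniteDimensional ℚ V]
    [AddCommGroup A] [Module ℚ A] [FiniteDimensional ℚ A]
    (B : V →ₗ[ℚ] V →ₗ[ℚ] ℚ) (hn : ∀ x, (∀ y, B x y = 0) → x = 0)
    (ℓ a : A →ₗ[ℚ] V) (hc : ∀ c d, B (ℓ c) (a d) = B (a c) (ℓ d))
    (hpos : ∃ ε0 : ℚ, 0 < ε0 ∧ ∀ ε, 0 < ε → ε < ε0 → ∀ z,
      (∀ c, B z (ℓ c + ε • a c) = 0) → 0 ≤ B z z)
    (hneg : ∀ r, r ≠ 0 → ℓ r = 0 → B (a r) (a r) < 0)
    (y : V) (hy : ∀ c, B y (ℓ c) = 0) (hy' : ∀ r, ℓ r = 0 → B y (a r) = 0) : 0 ≤ B y y := by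
  obtain ⟨C, hC⟩ := (LinearMap.ker ℓ).exists_isCompl
  let J : (C × LinearMap.ker ℓ) →ₗ[ℚ] V :=
    (ℓ ∘ₗ C.subtype).coprod (a ∘ₗ (LinearMap.ker ℓ).subtype)
  let J1 : (C × LinearMap.ker ℓ) →ₗ[ℚ] V := (a ∘ₗ C.subtype).coprod 0
  have hJ : Function.Injective J := by
    rw [← LinearMap.ker_eq_bot, LinearMap.ker_eq_bot']
    rintro ⟨c, r⟩ h
    change ℓ c + a r = 0 at h
    have hr : (r : A) = 0 := by
      by_contra hne
      have h1 := hneg r hne r.2
      have h2 : B (ℓ c + a r) (a r) = 0 := by rw [h, map_zero, LinearMap.zero_apply]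
      rw [map_add, LinearMap.add_apply, hc, LinearMap.mem_ker.1 r.2, map_zero, zero_add] at h2
      rw [h2] at h1
      exact lt_irrefl _ h1
    have hr' : r = 0 := Subtype.ext hr
    rw [hr, map_zero, add_zero] at h
    have hc0 : (c : A) = 0 := by
      have h3 : (c : A) ∈ LinearMap.ker ℓ ⊓ C := ⟨h, c.2⟩
      rw [hC.inf_eq_bot] at h3
      exact (Submodule.mem_bot ℚ).1 h3
    rw [hr', Subtype.ext hc0 (a2 := (0 : C))]
    rfl
  have hB : Function.Surjective B := by
    have h1 : Function.Injective B := by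
      rw [← LinearMap.ker_eq_bot, LinearMap.ker_eq_bot']
      intro x hx
      exact hn x fun y => by rw [hx, LinearMap.zero_apply]
    exact (LinearMap.injective_iff_surjective_of_finrank_eq_finrank
      (Subspace.dual_finrank_eq).symm).1 h1
  let e := (Module.finBasis ℚ (Module.Dual ℚ (C × LinearMap.ker ℓ))).equivFun
  let T0 : V →ₗ[ℚ] Module.Dual ℚ (C × LinearMap.ker ℓ) := J.dualMap ∘ₗ B
  let T1 : V →ₗ[ℚ] Module.Dual ℚ (C × LinearMap.ker ℓ) := J1.dualMap ∘ₗ B
  obtain ⟨ε0, hε0, hpos⟩ := hpos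
  refine limit_fin B (e.toLinearMap ∘ₗ T0) (e.toLinearMap ∘ₗ T1) ?_ ⟨ε0, hε0, ?_⟩ y ?_
  · rw [LinearMap.coe_comp]
    exact e.surjective.comp ((LinearMap.dualMap_surjective_of_injective hJ).comp hB)
  · intro ε h1 h2 z hz
    apply hpos ε h1 h2
    have hz' : T0 z + ε • T1 z = 0 := by
      apply e.injective
      rw [map_add, map_smul, map_zero]
      exact hz
    have key : ∀ (c : C) (r : LinearMap.ker ℓ), B z (ℓ c) + B z (a r) + ε * B z (a c) = 0 := by
      intro c r
      have h3 := LinearMap.congr_fun hz' (c, r)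
      change B z (ℓ c + a r) + ε * B z (a c + 0) = 0 at h3
      rw [map_add, add_zero] at h3
      exact h3
    intro d
    obtain ⟨r, hr, c, hcC, hd⟩ := Submodule.mem_sup.1
      (show d ∈ LinearMap.ker ℓ ⊔ C by rw [hC.sup_eq_top]; exact Submodule.mem_top)
    have h4 := key ⟨c, hcC⟩ 0
    have h5 := key 0 ⟨r, hr⟩
    simp only [ZeroMemClass.coe_zero, map_zero, add_zero, mul_zero, zero_add] at h4 h5
    rw [← hd]
    simp only [map_add, map_smul, smul_eq_mul, smul_add]
    rw [LinearMap.mem_ker.1 hr, map_zero, h5]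
    linarith
  · rw [LinearMap.comp_apply]
    change e (T0 y) = 0
    have : T0 y = 0 := by
      ext x
      · change B y (ℓ x + a 0) = 0
        rw [map_zero, add_zero, hy]
      · change B y (ℓ 0 + a x) = 0
        rw [map_zero, zero_add, hy' _ (LinearMap.mem_ker.1 x.2)]
    rw [this, map_zero]

end Limit

end Pool.Agent.K1H98.HS
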