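import Pool.Agent.K1H98.HS.Down
import Pool.Agent.H914R2.DDefs

/-!
# The numerical standard conjecture of Hodge type for fourfolds of ruled type
-/

set_option autoImplicit false

open CategoryTheory AlgebraicGeometry Module

universe u v

namespace Pool.Agent.K1H98.HS

open Pool.Agent.H914 Pool.Agent.H914.VarClass Pool.Agent.H914.VarClass.Obj
  Pool.Agent.H914.WeilCohomology

variable {k : Type u} [Field k] {𝒱 : VarClass k} {ops : CycleOps 𝒱}

variable (W : WeilCohomology.{u, v} ops)

lemma sum_cyc {X : 𝒱.Obj} {p : ℕ} {ι : Type*} (s : Finset ι) (a : ι → ℚ) (E : ι → X.Cycles)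
    (hE : ∀ i, X.IsCyc p (E i)) : X.IsCyc p (∑ i ∈ s, a i • E i) :=
  (Zc X p).sum_mem fun i _ => (Zc X p).smul_mem (a i) (hE i)

lemma cls_sum {X : 𝒱.Obj} {p q : ℕ} (h : p + q = X.dim) {ι : Type*} (s : Finset ι) (a : ι → ℚ)
    (E : ι → X.Cycles) (hE : ∀ i, X.IsCyc p (E i)) :
    cls W h (sum_cyc s a E hE) = ∑ i ∈ s, a i • cls W h (hE i) := by
  have h1 : (⟨∑ i ∈ s, a i • E i, sum_cyc s a E hE⟩ : Zc X p) =
      ∑ i ∈ s, a i • (⟨E i, hE i⟩ : Zc X p) := by
    apply Subtype.ext
    rw [AddSubmonoidClass.coe_finsetSum]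
    rfl
  rw [cls, h1, map_sum]
  apply Finset.sum_congr rfl
  intro i _
  rw [map_smul]
  rfl

lemma fewNeg_iff {X : 𝒱.Obj} (hX : X.dim = 4) : FewNeg W hX ↔ FewNegativeSquares ops X := by
  have hfin : Module.Finite ℚ (Nm W X 1 3 (h1 hX)) := finite_Nm W (h1 hX)
  constructor
  · rintro ⟨r, w, hr, hw⟩
    choose w' hw' hww using fun i => cls_surj W (h2 hX) (w i)
    let b := Module.finBasis ℚ (Nm W X 1 3 (h1 hX))
    choose E hE hEb using fun i => cls_surj W (h1 hX) (b i)
    have hr' : r + 1 ≤ finrank ℚ (Nm W X 1 3 (h1 hX)) := hr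
    have hE' : ∀ i : Fin (r + 1), X.IsCyc 1 (E (Fin.castLE hr' i)) := fun i => hE _
    refine ⟨r, fun i => E (Fin.castLE hr' i), w', hE', ?_, hw', ?_⟩
    · intro a ha
      rw [numZero_iff W (h1 hX) (sum_cyc _ _ _ hE'), cls_sum W (h1 hX) _ _ _ hE'] at ha
      have h3 : LinearIndependent ℚ (fun i : Fin (r + 1) => b (Fin.castLE hr' i)) :=
        b.linearIndependent.comp _ (Fin.castLE_injective hr')
      rw [Fintype.linearIndependent_iff] at h3
      funext i
      refine h3 a ?_ i
      rw [← ha]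
      apply Finset.sum_congr rfl
      intro i _
      rw [hEb]
    · intro z hz h3
      have h4 := hw (cls W (h2 hX) hz) (fun i => by
        rw [← hww i, form_cls]
        exact h3 i)
      exact h4
  · rintro ⟨r, E, w, hE, hind, hw, hz⟩
    refine ⟨r, fun i => cls W (h2 hX) (hw i), ?_, ?_⟩
    · have h3 : LinearIndependent ℚ (fun i : Fin (r + 1) => cls W (h1 hX) (hE i)) := by
        rw [Fintype.linearIndependent_iff]
        intro a ha i
        rw [← cls_sum, ← numZero_iff W (h1 hX) (sum_cyc _ _ _ hE)] at ha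
        exact congrFun (hind a ha) i
      have h4 := h3.fintype_card_le_finrank
      rw [Fintype.card_fin] at h4
      exact h4
    · intro x hx
      obtain ⟨z, hz', rfl⟩ := cls_surj W (h2 hX) x
      exact hz z hz' fun i => hx i

include W in
theorem hodgeNum_iff_few {X : 𝒱.Obj} (hX : X.dim = 4) {D : X.Cycles} (hI : HodgeIndex ops X D) :
    HodgeNum ops X D 2 ↔ FewNegativeSquares ops X := by
  rw [← fewNeg_iff W hX]
  exact ⟨fewNeg_of_hodgeNum W hX hI, hodgeNum_of_fewNeg W hX hI⟩

variable {Amp : ∀ X : 𝒱.Obj, X.Cycles → Prop}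

theorem reach (hA : IsAmpleness W Amp) {X : 𝒱.Obj} (h : Reachable W Amp X) :
    ∃ hX : X.dim = 4, FewNeg W hX := by
  induction h with
  | known hX hD h => exact ⟨hX, fewNeg_of_hodgeNum W hX (hA.index _ _ hD) h⟩
  | @bundle P B π ξ hB h =>
    obtain ⟨H, hH⟩ := hA.nonempty B
    have hP : P.dim = 4 := by rw [h.dim, hB]
    exact ⟨hP, fewNeg_bundle W hB hP h (hA.index _ _ hH)⟩
  | @blowUp X' X Z E f i j p ζ c h _ ih =>
    obtain ⟨hX, hF⟩ := ih
    obtain ⟨H, hH⟩ := hA.nonempty Z
    have hX' : X'.dim = 4 := by rw [h.dim, hX]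
    exact ⟨hX', fewNeg_blow W hX hX' h (hA.index _ _ hH) hF⟩
  | @blowDown X' X Z E f i j p ζ c h _ ih =>
    obtain ⟨hX', hF⟩ := ih
    have hX : X.dim = 4 := by rw [← h.dim, hX']
    obtain ⟨L, hL⟩ := hA.nonempty X
    obtain ⟨A, hAA⟩ := hA.nonempty X'
    have hf : IsGenFinite W f 1 := ⟨h.dim, one_pos, h.hasDegree⟩
    have hI := hA.index _ _ hL
    have h3 := hodgeNum_image W hX hX' hf hI (hA.index _ _ hAA)
      (fun ε hε => hA.index _ _ (hA.add f 1 hf L A hL hAA ε hε)) (hA.mixed f 1 hf hX L A hL hAA)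
      (fun D hD h0 z hz => centre_cond W hX hX' h hI
        (hA.index _ _ (hA.centre f i j p ζ c h L hL)) D hD h0 z hz) hF
    exact ⟨hX, fewNeg_of_hodgeNum W hX hI h3⟩
  | @image X' X f d L hf hL hG _ ih =>
    obtain ⟨hX', hF⟩ := ih
    have hX : X.dim = 4 := by rw [← hf.dim, hX']
    obtain ⟨A, hAA⟩ := hA.nonempty X'
    have hI := hA.index _ _ hL
    have h3 := hodgeNum_image W hX hX' hf hI (hA.index _ _ hAA)
      (fun ε hε => hA.index _ _ (hA.add f d hf L A hL hAA ε hε)) (hA.mixed f d hf hX L A hL hAA)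
      hG hF
    exact ⟨hX, fewNeg_of_hodgeNum W hX hI h3⟩

/-- If homological and numerical equivalence agree, the numerical form of the conjecture in
codimension two implies the conjecture for the fourfold. -/
theorem hodgeType_of_num {X : 𝒱.Obj} (hX : X.dim = 4) {D : X.Cycles} (hI : HodgeIndex ops X D)
    (h : HodgeNum ops X D 2) (hN : HomEqNum W X) : HodgeType W X D := by
  intro j hj z hz hprim hne
  have hD := hI.cyc
  have hcases : j = 0 ∨ j = 1 ∨ j = 2 := by omega
  rcases hcases with rfl | rfl | rfl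
  · rw [pow_zero, one_mul, mul_zero, Nat.sub_zero]
    obtain ⟨t, ht⟩ := deg_zero W hz
    have hpos := hI.pos
    have hD4 : X.IsCyc X.dim (divPow ops D X.dim X.V.fundCycle) :=
      cyc_cast (dp_mem hD X.dim X.V.fundCycle_mem) (by omega)
    have hq := num_cast W hz hD4 (by omega)
    set δ := X.V.degCycle (divPow ops D X.dim X.V.fundCycle) with hδ
    have hδ' : W.tr X (W.cl X D ^ X.dim) = (δ : W.K) := by
      rw [hδ, ← W.tr_cl hD4, cl_dp, W.cl_fund, mul_one]
    rw [cl_dp, W.cl_fund, mul_one, ht, smul_mul_assoc, one_mul, map_smul, hδ', smul_eq_mul] at hq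
    set q := num ops z (divPow ops D X.dim X.V.fundCycle)
    have hne' : t ≠ 0 := by
      rintro rfl
      exact hne (by rw [ht, zero_smul])
    have hres : X.V.degCycle (ops.mul z (divPow ops D X.dim z)) = q * q / δ := by
      apply rat_inj W
      rw [← W.tr_cl (by
        have := ops.mul_mem hz (dp_mem (ops := ops) hD X.dim hz)
        exact cyc_cast this (by omega)), W.cl_mul, cl_dp, ht, smul_mul_assoc, one_mul,
        mul_smul_comm, mul_one, map_smul, map_smul, hδ', smul_eq_mul, smul_eq_mul, Rat.cast_div,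
        Rat.cast_mul, hq]
      have hδne : (δ : W.K) ≠ 0 := by exact_mod_cast hpos.ne'
      field_simp
    rw [hres]
    have hqne : q ≠ 0 := by
      intro h0
      rw [h0, Rat.cast_zero] at hq
      have hδne : (δ : W.K) ≠ 0 := by exact_mod_cast hpos.ne'
      exact (mul_ne_zero hne' hδne) hq.symm
    have := mul_self_pos.2 hqne
    positivity
  · have hnz : ¬ NumZero ops X 1 z := fun h0 => hne (hN 1 (by omega) z hz h0)
    have h3 := hI.neg z hz (by
      apply rat_inj W
      have hprim' : W.cl X D ^ 3 * W.cl X z = 0 := by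
        rw [cl_dp, show X.dim - 2 * 1 + 1 = 3 by omega] at hprim
        exact hprim
      rw [← W.tr_cl (by
        have := ops.mul_mem hz (dp_mem (ops := ops) hD (X.dim - 1) X.V.fundCycle_mem)
        exact cyc_cast this (by omega)), W.cl_mul, cl_dp, W.cl_fund, mul_one,
        show X.dim - 1 = 3 by omega, cl_comm W hz, hprim', map_zero, Rat.cast_zero]) hnz
    rw [show X.dim - 2 * 1 = X.dim - 2 by omega]
    linarith
  · apply h z hz _ (fun h0 => hne (hN 2 (by omega) z hz h0))
    intro w hw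
    have h3 : X.IsCyc 1 w := cyc_cast hw (by omega)
    have h4 : X.IsCyc X.dim (ops.mul (divPow ops D (X.dim - 2 * 2 + 1) z) w) := by
      have := ops.mul_mem (dp_mem (ops := ops) hD (X.dim - 2 * 2 + 1) hz) h3
      exact cyc_cast this (by omega)
    apply rat_inj W
    rw [← W.tr_cl h4, W.cl_mul, hprim, zero_mul, map_zero, Rat.cast_zero]

end Pool.Agent.K1H98.HS
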