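import Pool.Agent.H914R2.HodgeDefs
import Pool.Agent.H914R2.WeilBasic
import Pool.Agent.K1H98.HS.Lin

/-!
# Cycles modulo numerical equivalence
-/

set_option autoImplicit false

open CategoryTheory AlgebraicGeometry Module

universe u v

namespace Pool.Agent.K1H98.HS

open Pool.Agent.H914 Pool.Agent.H914.VarClass Pool.Agent.H914.VarClass.Obj
  Pool.Agent.H914.WeilCohomology

variable {k : Type u} [Field k] {𝒱 : VarClass k} {ops : CycleOps 𝒱}

/-- The intersection number of two cycles of complementary codimensions. -/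
noncomputable def num (ops : CycleOps 𝒱) {X : 𝒱.Obj} (z w : X.Cycles) : ℚ :=
  X.V.degCycle (ops.mul z w)

/-- The cycles of codimension `p`. -/
def Zc (X : 𝒱.Obj) (p : ℕ) : Submodule ℚ X.Cycles where
  carrier := {z | X.IsCyc p z}
  zero_mem' := SmVar.IsCyc.zero _ _
  add_mem' := fun h h' => SmVar.IsCyc.add h h'
  smul_mem' := fun q _ h => SmVar.IsCyc.smul q h

variable (W : WeilCohomology.{u, v} ops) {X : 𝒱.Obj} {p q : ℕ}

lemma num_cast {z w : X.Cycles} (hz : X.IsCyc p z) (hw : X.IsCyc q w) (h : p + q = X.dim) :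
    ((num ops z w : ℚ) : W.K) = W.tr X (W.cl X z * W.cl X w) := by
  rw [← W.cl_mul, W.tr_cl (by rw [← h]; exact ops.mul_mem hz hw)]
  rfl

lemma rat_inj {a b : ℚ} (h : (a : W.K) = b) : a = b := Rat.cast_injective h

/-- Products of classes of cycles commute. -/
lemma cl_comm {z : X.Cycles} (hz : X.IsCyc p z) (a : W.H X) : W.cl X z * a = a * W.cl X z :=
  even_comm W (W.cl_mem hz) a

/-- The intersection pairing. -/
noncomputable def pr (W : WeilCohomology.{u, v} ops) (X : 𝒱.Obj) (p q : ℕ) (h : p + q = X.dim) :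
    Zc X p →ₗ[ℚ] Zc X q →ₗ[ℚ] ℚ :=
  LinearMap.mk₂ ℚ (fun z w => num ops (z : X.Cycles) (w : X.Cycles))
    (fun z z' w => by
      apply rat_inj W
      rw [Rat.cast_add, num_cast W z.2 w.2 h, num_cast W z'.2 w.2 h,
        num_cast W (z + z').2 w.2 h, ← map_add, ← add_mul]
      congr 2
      exact map_add _ _ _)
    (fun c z w => by
      apply rat_inj W
      rw [smul_eq_mul, Rat.cast_mul, num_cast W z.2 w.2 h, num_cast W (c • z).2 w.2 h]
      have : W.cl X ((c • z : Zc X p) : X.Cycles) = (c : W.K) • W.cl X (z : X.Cycles) :=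
        cl_smul W c _
      rw [this, smul_mul_assoc, map_smul, smul_eq_mul])
    (fun z w w' => by
      apply rat_inj W
      rw [Rat.cast_add, num_cast W z.2 w.2 h, num_cast W z.2 w'.2 h,
        num_cast W z.2 (w + w').2 h, ← map_add, ← mul_add]
      congr 2
      exact map_add _ _ _)
    (fun c z w => by
      apply rat_inj W
      rw [smul_eq_mul, Rat.cast_mul, num_cast W z.2 w.2 h, num_cast W z.2 (c • w).2 h]
      have : W.cl X ((c • w : Zc X q) : X.Cycles) = (c : W.K) • W.cl X (w : X.Cycles) :=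
        cl_smul W c _
      rw [this, mul_smul_comm, map_smul, smul_eq_mul])

lemma pr_apply (h : p + q = X.dim) (z : Zc X p) (w : Zc X q) :
    pr W X p q h z w = num ops (z : X.Cycles) (w : X.Cycles) := rfl

/-- Finitely many cycles detect numerical triviality. -/
lemma exists_detect (h : p + q = X.dim) : ∃ T : Finset (Zc X q),
    ∀ z : Zc X p, (∀ t ∈ T, pr W X p q h z t = 0) → pr W X p q h z = 0 := by
  classical
  let f : Zc X q → W.H X := fun w => W.cl X (w : X.Cycles)
  obtain ⟨s', hs', hspan⟩ := (Submodule.fg_span_iff_fg_span_finset_subset (Set.range f)).1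
    (IsNoetherian.noetherian (Submodule.span W.K (Set.range f)))
  have hch : ∀ b : s', ∃ w : Zc X q, f w = b := fun b => hs' b.2
  choose g hg using hch
  refine ⟨Finset.univ.image g, fun z hz => ?_⟩
  have hfun : ∀ b ∈ Submodule.span W.K (Set.range f), W.tr X (W.cl X (z : X.Cycles) * b) = 0 := by
    intro b hb
    rw [hspan] at hb
    induction hb using Submodule.span_induction with
    | mem b hb =>
      have h1 := hz (g ⟨b, hb⟩) (Finset.mem_image_of_mem _ (Finset.mem_univ _))
      rw [pr_apply] at h1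
      have h2 := num_cast W z.2 (g ⟨b, hb⟩).2 h
      rw [h1, Rat.cast_zero] at h2
      rw [← show f (g ⟨b, hb⟩) = b from hg ⟨b, hb⟩]
      exact h2.symm
    | zero => rw [mul_zero, map_zero]
    | add a b _ _ ha hb => rw [mul_add, map_add, ha, hb, add_zero]
    | smul c b _ hb => rw [mul_smul_comm, map_smul, hb, smul_zero]
  apply LinearMap.ext
  intro w
  apply rat_inj W
  rw [pr_apply, num_cast W z.2 w.2 h, hfun _ (Submodule.subset_span ⟨w, rfl⟩),
    LinearMap.zero_apply, Rat.cast_zero]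

/-- Cycles of codimension `p` modulo numerical equivalence. -/
abbrev Nm (W : WeilCohomology.{u, v} ops) (X : 𝒱.Obj) (p q : ℕ) (h : p + q = X.dim) :=
  Zc X p ⧸ LinearMap.ker (pr W X p q h)

instance finite_Nm (h : p + q = X.dim) : Module.Finite ℚ (Nm W X p q h) := by
  obtain ⟨T, hT⟩ := exists_detect W (X := X) h
  let G : Zc X p →ₗ[ℚ] (T → ℚ) := LinearMap.pi fun t =>
    (LinearMap.applyₗ (R := ℚ) (t : Zc X q)).comp (pr W X p q h)
  have hG : ∀ z, G z = 0 ↔ z ∈ LinearMap.ker (pr W X p q h) := by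
    intro z
    rw [LinearMap.mem_ker]
    constructor
    · intro hz
      apply hT
      intro t ht
      exact congrFun hz ⟨t, ht⟩
    · intro hz
      funext t
      change pr W X p q h z t = 0
      rw [hz, LinearMap.zero_apply]
  let G' : Nm W X p q h →ₗ[ℚ] (T → ℚ) := (LinearMap.ker (pr W X p q h)).liftQ G
    (fun z hz => (hG z).2 hz)
  have hinj : Function.Injective G' := by
    rw [injective_iff_map_eq_zero]
    intro x hx
    obtain ⟨z, rfl⟩ := Submodule.mkQ_surjective _ x
    rw [Submodule.mkQ_apply, Submodule.Quotient.mk_eq_zero]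
    exact (hG z).1 hx
  exact Module.Finite.of_injective G' hinj

/-- The class modulo numerical equivalence. -/
noncomputable def cls (W : WeilCohomology.{u, v} ops) {X : 𝒱.Obj} {p q : ℕ} (h : p + q = X.dim)
    {z : X.Cycles} (hz : X.IsCyc p z) : Nm W X p q h :=
  (LinearMap.ker (pr W X p q h)).mkQ ⟨z, hz⟩

lemma cls_surj (h : p + q = X.dim) (x : Nm W X p q h) :
    ∃ (z : X.Cycles) (hz : X.IsCyc p z), cls W h hz = x := by
  obtain ⟨z, rfl⟩ := Submodule.mkQ_surjective _ x
  exact ⟨z, z.2, rfl⟩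

lemma cls_eq_zero (h : p + q = X.dim) {z : X.Cycles} (hz : X.IsCyc p z) :
    cls W h hz = 0 ↔ ∀ w, X.IsCyc q w → num ops z w = 0 := by
  rw [cls, Submodule.mkQ_apply, Submodule.Quotient.mk_eq_zero, LinearMap.mem_ker]
  constructor
  · intro h1 w hw
    exact LinearMap.congr_fun h1 ⟨w, hw⟩
  · intro h1
    exact LinearMap.ext fun w => h1 w w.2

lemma cls_congr (h : p + q = X.dim) {z z' : X.Cycles} (hz : X.IsCyc p z) (hz' : X.IsCyc p z')
    (hcl : W.cl X z = W.cl X z') : cls W h hz = cls W h hz' := by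
  rw [← sub_eq_zero]
  have h1 : cls W h hz - cls W h hz' =
      (LinearMap.ker (pr W X p q h)).mkQ (⟨z, hz⟩ - ⟨z', hz'⟩) := (map_sub _ _ _).symm
  rw [h1, Submodule.mkQ_apply, Submodule.Quotient.mk_eq_zero, LinearMap.mem_ker]
  apply LinearMap.ext
  intro w
  rw [map_sub, LinearMap.sub_apply, pr_apply, pr_apply, LinearMap.zero_apply, sub_eq_zero]
  apply rat_inj W
  rw [num_cast W hz w.2 h, num_cast W hz' w.2 h, hcl]

lemma cls_add (h : p + q = X.dim) {z z' : X.Cycles} (hz : X.IsCyc p z) (hz' : X.IsCyc p z') :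
    cls W h (SmVar.IsCyc.add hz hz') = cls W h hz + cls W h hz' :=
  (LinearMap.ker (pr W X p q h)).mkQ.map_add ⟨z, hz⟩ ⟨z', hz'⟩

lemma cls_smul (h : p + q = X.dim) (c : ℚ) {z : X.Cycles} (hz : X.IsCyc p z) :
    cls W h (SmVar.IsCyc.smul c hz) = c • cls W h hz :=
  (LinearMap.ker (pr W X p q h)).mkQ.map_smul c ⟨z, hz⟩

/-- The pairing modulo numerical equivalence, on the right a cycle. -/
noncomputable def prL (h : p + q = X.dim) : Nm W X p q h →ₗ[ℚ] Zc X q →ₗ[ℚ] ℚ :=
  (LinearMap.ker (pr W X p q h)).liftQ (pr W X p q h) le_rfl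

lemma prL_cls (h : p + q = X.dim) {z : X.Cycles} (hz : X.IsCyc p z) (w : Zc X q) :
    prL W h (cls W h hz) w = num ops z (w : X.Cycles) := rfl

include W in
lemma num_comm (h : p + q = X.dim) {z w : X.Cycles} (hz : X.IsCyc p z) (hw : X.IsCyc q w) :
    num ops z w = num ops w z := by
  apply rat_inj W
  rw [num_cast W hz hw h, num_cast W hw hz (by omega), cl_comm W hz]

/-- The intersection form on the middle codimension, modulo numerical equivalence. -/
noncomputable def form (W : WeilCohomology.{u, v} ops) (X : 𝒱.Obj) {p : ℕ} (h : p + p = X.dim) :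
    Nm W X p p h →ₗ[ℚ] Nm W X p p h →ₗ[ℚ] ℚ :=
  ((LinearMap.ker (pr W X p p h)).liftQ (prL W h).flip (by
    intro w hw
    rw [LinearMap.mem_ker] at hw ⊢
    apply LinearMap.ext
    intro x
    obtain ⟨z, hz, rfl⟩ := cls_surj W h x
    rw [LinearMap.flip_apply, prL_cls, LinearMap.zero_apply, num_comm W h hz w.2]
    exact LinearMap.congr_fun hw ⟨z, hz⟩)).flip

lemma form_cls (h : p + p = X.dim) {z w : X.Cycles} (hz : X.IsCyc p z) (hw : X.IsCyc p w) :
    form W X h (cls W h hz) (cls W h hw) = num ops z w := rfl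

lemma form_symm (h : p + p = X.dim) (x y : Nm W X p p h) : form W X h x y = form W X h y x := by
  obtain ⟨z, hz, rfl⟩ := cls_surj W h x
  obtain ⟨w, hw, rfl⟩ := cls_surj W h y
  rw [form_cls, form_cls, num_comm W h hz hw]

lemma form_nondeg (h : p + p = X.dim) (x : Nm W X p p h) (hx : ∀ y, form W X h x y = 0) :
    x = 0 := by
  obtain ⟨z, hz, rfl⟩ := cls_surj W h x
  rw [cls_eq_zero]
  intro w hw
  exact hx (cls W h hw)

/-- Multiplication by a divisor, from codimension one to codimension two on a fourfold. -/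
noncomputable def ell (W : WeilCohomology.{u, v} ops) {X : 𝒱.Obj} (h2 : 2 + 2 = X.dim)
    (h1 : 1 + 3 = X.dim) {D : X.Cycles} (hD : X.IsCyc 1 D) :
    Nm W X 1 3 h1 →ₗ[ℚ] Nm W X 2 2 h2 :=
  (LinearMap.ker (pr W X 1 3 h1)).liftQ
    { toFun := fun E => cls W h2 (ops.mul_mem hD E.2)
      map_add' := fun E E' => by
        rw [← cls_add]
        apply cls_congr
        have : ((E + E' : Zc X 1) : X.Cycles) = (E : X.Cycles) + (E' : X.Cycles) := rfl
        rw [W.cl_mul, map_add, W.cl_mul, W.cl_mul, this, map_add, mul_add]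
      map_smul' := fun c E => by
        rw [RingHom.id_apply, ← cls_smul]
        apply cls_congr
        have : ((c • E : Zc X 1) : X.Cycles) = c • (E : X.Cycles) := rfl
        rw [W.cl_mul, cl_smul, W.cl_mul, this, cl_smul, mul_smul_comm] }
    (by
      intro E hE
      rw [LinearMap.mem_ker] at hE ⊢
      change cls W h2 (ops.mul_mem hD E.2) = 0
      rw [cls_eq_zero]
      intro w hw
      have h3 := LinearMap.congr_fun hE ⟨ops.mul D w, by
        have := ops.mul_mem hD hw
        exact this⟩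
      rw [pr_apply, LinearMap.zero_apply] at h3
      apply rat_inj W
      have h4 : X.IsCyc (1 + 2) (ops.mul D w) := ops.mul_mem hD hw
      have h5 := num_cast W (z := (E : X.Cycles)) E.2 h4 h1
      rw [h3, Rat.cast_zero, W.cl_mul] at h5
      rw [num_cast W (ops.mul_mem hD E.2) hw h2, W.cl_mul, Rat.cast_zero, h5,
        cl_comm W hD (W.cl X (E : X.Cycles)), mul_assoc])

lemma ell_cls (h2 : 2 + 2 = X.dim) (h1 : 1 + 3 = X.dim) {D : X.Cycles} (hD : X.IsCyc 1 D)
    {E : X.Cycles} (hE : X.IsCyc 1 E) :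
    ell W h2 h1 hD (cls W h1 hE) = cls W h2 (ops.mul_mem hD hE) := rfl

end Pool.Agent.K1H98.HS
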